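import Pool.Agent.Helper96.SP.St

/-!
# Project SP: module Bad

SP-8. For fixed `r = s.2` cut the primes `q = s.1` into dyadic blocks `(Y, 2Y]`, `Y = 2^i`: at most
`2 δ log z + 2` blocks, `log Y ≥ (θ/2) log z` for `z ≥ z0(θ)`. On a block `b = (|r|-|q|)/2` moves by
`log 2 / (2 log z)`, so `|DD (b_q)| ≤ (2 log z/log 2) ∫_block |DD| + K τ(r)/log z` (`Bump.lip`).
`∑_q 1/q ≤ C hh(r)/(log Y)^2` (`PairS`). The blocks of one `r` lie in an interval of length
`δ/2 + 2/log z ≤ δ`, starting at `β r = |r| - 1/2 - 1/log z`: `L2Main`. The error terms: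
`∑_r hh(r) τ(r)/r ≤ ∑ w5(r) τ(r)^2 ≤ C (log z)^2` (`Euler`, `ξ = 0`, `‖ph z r 0‖ = τ(r) ≥ 2^ω(r)`).
Total `(C/(θ log z)^2) (log z) C (log z)^2 √(δ/J) + O_F(1)`.
-/

set_option autoImplicit false

open Finset MeasureTheory
open scoped FourierTransform

namespace Pool.Agent.Helper96.SP

namespace BadAux

theorem one_le_hh {r : ℕ} (hr : 1 ≤ r) : 1 ≤ hh r := by
  unfold hh
  have h1 : 0 < (r.totient : ℝ) := by exact_mod_cast Nat.totient_pos.2 hr
  have h2 : (r.totient : ℝ) ≤ r := by exact_mod_cast Nat.totient_le r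
  have h3 : 1 ≤ (r : ℝ) / r.totient := (one_le_div h1).2 h2
  nlinarith

theorem hh_nonneg (r : ℕ) : 0 ≤ hh r := by
  unfold hh
  positivity

theorem two_pow_le {r : ℕ} (hr : 1 ≤ r) :
    (2 : ℝ) ^ r.primeFactors.card ≤ (r.divisors.card : ℝ) := by
  have h1 : 2 ^ r.primeFactors.card ≤ r.divisors.card := by
    rw [Nat.card_divisors (by omega), ← Finset.prod_const]
    refine Finset.prod_le_prod' ?_
    intro p hp
    have h2 := Nat.support_factorization r
    have h3 : r.factorization p ≠ 0 := by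
      have : p ∈ r.factorization.support := by rw [h2]; exact hp
      exact Finsupp.mem_support_iff.1 this
    omega
  exact_mod_cast h1

theorem ph_zero (z : ℝ) (r : ℕ) : ph z r 0 = (r.divisors.card : ℂ) := by
  unfold ph
  simp

/-- The sum of the error terms. -/
theorem err_sum {z C : ℝ}
    (h : ∑ r ∈ Icc 1 ⌊z⌋₊, w5 r * ‖ph z r 0‖ ^ 2 ≤ C * Real.log z ^ 2) :
    ∑ r ∈ Icc 1 ⌊z⌋₊, hh r / r * (r.divisors.card : ℝ) ≤ C * Real.log z ^ 2 := by
  refine le_trans (Finset.sum_le_sum ?_) h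
  intro r hr
  rw [Finset.mem_Icc] at hr
  have hr0 : (0 : ℝ) < r := by exact_mod_cast hr.1
  have h1 := one_le_hh hr.1
  have h2 := two_pow_le hr.1
  have h3 : (0 : ℝ) < (2 : ℝ) ^ r.primeFactors.card := by positivity
  rw [ph_zero]
  unfold w5
  rw [Complex.norm_natCast]
  set t : ℝ := (r.divisors.card : ℝ) with ht
  set w : ℝ := (2 : ℝ) ^ r.primeFactors.card with hw
  have h4 : hh r ^ 2 / (w * r) * t ^ 2 = hh r / r * t * (hh r * t / w) := by
    field_simp
  rw [h4]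
  have h5 : 1 ≤ hh r * t / w := by
    rw [le_div_iff₀ h3]
    nlinarith
  have h6 : 0 ≤ hh r / r * t := by
    have := hh_nonneg r
    positivity
  nlinarith

theorem ft_lip {j0 J : ℕ} {K : ℝ} (hK : ∀ x y : ℝ, |FF j0 J x - FF j0 J y| ≤ K * |x - y|)
    (x y : ℝ) : |Ft j0 J x - Ft j0 J y| ≤ 2 * K * |x - y| := by
  unfold Ft
  have h1 := hK x y
  have h2 := hK (-x) (-y)
  have h3 : |(-x) - (-y)| = |x - y| := by
    rw [← abs_neg]
    congr 1
    ring
  rw [h3] at h2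
  have h4 : FF j0 J x - FF j0 J (-x) - (FF j0 J y - FF j0 J (-y)) =
      (FF j0 J x - FF j0 J y) - (FF j0 J (-x) - FF j0 J (-y)) := by ring
  rw [h4]
  have h5 := abs_sub (FF j0 J x - FF j0 J y) (FF j0 J (-x) - FF j0 J (-y))
  linarith

theorem dd_lip {j0 J : ℕ} {K : ℝ} (hK : ∀ x y : ℝ, |FF j0 J x - FF j0 J y| ≤ K * |x - y|)
    (z : ℝ) (r : ℕ) (b b' : ℝ) :
    |DD j0 J z r b - DD j0 J z r b'| ≤ (2 * K * r.divisors.card) * |b - b'| := by
  unfold DD
  rw [← Finset.sum_sub_distrib]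
  refine le_trans (Finset.abs_sum_le_sum_abs _ _) ?_
  refine le_trans (Finset.sum_le_card_nsmul _ _ (2 * K * |b - b'|) ?_) ?_
  · intro k _
    have h1 := ft_lip hK (lg z k - b) (lg z k - b')
    have h2 : |lg z k - b - (lg z k - b')| = |b - b'| := by
      rw [← abs_neg]
      congr 1
      ring
    rw [h2] at h1
    exact h1
  · rw [nsmul_eq_mul]
    exact le_of_eq (by ring)

theorem lip_cont {f : ℝ → ℝ} {M : ℝ} (hf : ∀ x y, |f x - f y| ≤ M * |x - y|) :
    Continuous f := by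
  have h1 : LipschitzWith (Real.toNNReal M) f := by
    refine LipschitzWith.of_dist_le_mul ?_
    intro x y
    rw [Real.dist_eq, Real.dist_eq]
    refine le_trans (hf x y) ?_
    exact mul_le_mul_of_nonneg_right (Real.le_coe_toNNReal M) (abs_nonneg _)
  exact h1.continuous

/-- The value of a Lipschitz function is at most its mean value on an interval and an error. -/
theorem sup_le {f : ℝ → ℝ} {M : ℝ} (hM : 0 ≤ M) (hf : ∀ x y, |f x - f y| ≤ M * |x - y|)
    {u v b : ℝ} (huv : u < v) (hb : u ≤ b) (hb' : b ≤ v) :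
    |f b| ≤ (1 / (v - u)) * (∫ x in u..v, |f x|) + M * (v - u) := by
  have hc : Continuous (fun x => |f x|) := (lip_cont hf).abs
  have h1 : ∫ _ in u..v, (|f b| - M * (v - u)) ≤ ∫ x in u..v, |f x| := by
    refine intervalIntegral.integral_mono_on huv.le (by simp) (hc.intervalIntegrable _ _) ?_
    intro x hx
    have h2 := hf b x
    have h3 : |b - x| ≤ v - u := by
      rw [abs_le]
      constructor <;> linarith [hx.1, hx.2]
    have h4 : M * |b - x| ≤ M * (v - u) := mul_le_mul_of_nonneg_left h3 hM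
    have h5 := abs_sub_abs_le_abs_sub (f b) (f x)
    linarith
  rw [intervalIntegral.integral_const, smul_eq_mul] at h1
  have h6 : 0 < v - u := by linarith
  have h7 : |f b| - M * (v - u) ≤ (1 / (v - u)) * ∫ x in u..v, |f x| := by
    rw [one_div, ← div_eq_inv_mul, le_div_iff₀ h6]
    linarith
  linarith

/-- The end points of the blocks. -/
noncomputable def ee (L : ℝ) (r i : ℕ) : ℝ := (Real.log r - i * Real.log 2) / (2 * L)

/-- One block. -/
theorem block {Cp : ℝ} (hCp : ∀ r Y : ℕ, 1 ≤ r → 2 ≤ Y →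
    (((Ioc Y (2 * Y)).filter (fun q => q.Prime ∧ (q * r + 1).Prime)).card : ℝ) ≤
      Cp * hh r * Y / Real.log Y ^ 2)
    {r i : ℕ} (hr : 1 ≤ r) (hi : 1 ≤ i) (T : Finset (ℕ × ℕ))
    (hT : ∀ s ∈ T, s.2 = r ∧ 2 ^ i < s.1 ∧ s.1 ≤ 2 * 2 ^ i ∧ s.1.Prime ∧ (s.1 * s.2 + 1).Prime)
    (g : ℕ × ℕ → ℝ) (G : ℝ) (hG : 0 ≤ G) (hg : ∀ s ∈ T, g s ≤ G) :
    ∑ s ∈ T, (1 / ((s.1 * s.2 : ℕ) : ℝ)) * g s ≤
      hh r / r * (Cp / (i * Real.log 2) ^ 2) * G := by
  have hr0 : (0 : ℝ) < r := by exact_mod_cast hr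
  have hY : 2 ≤ 2 ^ i := by
    calc 2 = 2 ^ 1 := by norm_num
      _ ≤ 2 ^ i := Nat.pow_le_pow_right (by norm_num) hi
  have h1 := hCp r (2 ^ i) hr hY
  have hYp : (0 : ℝ) < ((2 ^ i : ℕ) : ℝ) := by positivity
  have h2 : T.card ≤ ((Ioc (2 ^ i) (2 * 2 ^ i)).filter
      (fun q => q.Prime ∧ (q * r + 1).Prime)).card := by
    refine Finset.card_le_card_of_injOn (fun s => s.1) ?_ ?_
    · intro s hs
      obtain ⟨a1, a2, a3, a4, a5⟩ := hT s hs
      rw [Finset.mem_coe, Finset.mem_filter, Finset.mem_Ioc]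
      rw [a1] at a5
      exact ⟨⟨a2, a3⟩, a4, a5⟩
    · intro s hs s' hs' h
      have b1 := (hT s hs).1
      have b2 := (hT s' hs').1
      exact Prod.ext h (b1.trans b2.symm)
  have h3 : (T.card : ℝ) ≤ Cp * hh r * ((2 ^ i : ℕ) : ℝ) / Real.log ((2 ^ i : ℕ) : ℝ) ^ 2 :=
    le_trans (by exact_mod_cast h2) h1
  have h4 : Real.log ((2 ^ i : ℕ) : ℝ) = i * Real.log 2 := by
    push_cast
    rw [Real.log_pow]
  rw [h4] at h3
  have h5 : ∀ s ∈ T, (1 / ((s.1 * s.2 : ℕ) : ℝ)) * g s ≤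
      (1 / (((2 ^ i : ℕ) : ℝ) * r)) * G := by
    intro s hs
    obtain ⟨a1, a2, a3, a4, a5⟩ := hT s hs
    have c1 : ((2 ^ i : ℕ) : ℝ) * r ≤ ((s.1 * s.2 : ℕ) : ℝ) := by
      rw [a1, Nat.cast_mul]
      have : ((2 ^ i : ℕ) : ℝ) ≤ (s.1 : ℝ) := by exact_mod_cast a2.le
      exact mul_le_mul_of_nonneg_right this hr0.le
    have c2 : 0 < ((2 ^ i : ℕ) : ℝ) * r := by positivity
    have c3 : 1 / ((s.1 * s.2 : ℕ) : ℝ) ≤ 1 / (((2 ^ i : ℕ) : ℝ) * r) :=
      one_div_le_one_div_of_le c2 c1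
    have c4 : 0 ≤ 1 / ((s.1 * s.2 : ℕ) : ℝ) := by positivity
    calc (1 / ((s.1 * s.2 : ℕ) : ℝ)) * g s ≤ (1 / ((s.1 * s.2 : ℕ) : ℝ)) * G :=
          mul_le_mul_of_nonneg_left (hg s hs) c4
      _ ≤ (1 / (((2 ^ i : ℕ) : ℝ) * r)) * G := mul_le_mul_of_nonneg_right c3 hG
  refine le_trans (Finset.sum_le_card_nsmul _ _ _ h5) ?_
  rw [nsmul_eq_mul]
  have h6 : 0 ≤ (1 / (((2 ^ i : ℕ) : ℝ) * r)) * G := by positivity
  refine le_trans (mul_le_mul_of_nonneg_right h3 h6) ?_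
  have hlog : 0 < Real.log 2 := Real.log_pos (by norm_num)
  have hi0 : (0 : ℝ) < i := by exact_mod_cast hi
  refine le_of_eq ?_
  field_simp

/-- All blocks of one `r`. -/
theorem per_r {Cp : ℝ} (hCp0 : 0 < Cp) (hCp : ∀ r Y : ℕ, 1 ≤ r → 2 ≤ Y →
    (((Ioc Y (2 * Y)).filter (fun q => q.Prime ∧ (q * r + 1).Prime)).card : ℝ) ≤
      Cp * hh r * Y / Real.log Y ^ 2)
    {θ δ z L : ℝ} (hθ : 0 < θ) (hδ : 0 < δ) (hL : L = Real.log z) (hz : 1 < z)
    (hL1 : 2 * Real.log 2 ≤ θ * L) (hL2 : 4 ≤ δ * L) {r : ℕ} (hr : 1 ≤ r)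
    (T : Finset (ℕ × ℕ)) (hT : ∀ s ∈ T, s.2 = r ∧ s.1.Prime ∧ (s.1 * s.2 + 1).Prime ∧
      z ^ θ < s.1 ∧ z ^ (1 - δ) ≤ ((s.1 * s.2 : ℕ) : ℝ) ∧ ((s.1 * s.2 : ℕ) : ℝ) ≤ z)
    (f : ℝ → ℝ) {M : ℝ} (hM : 0 ≤ M) (hf : ∀ x y, |f x - f y| ≤ M * |x - y|) (t : ℝ)
    (ht : 0 ≤ t) :
    ∑ s ∈ T, (1 / ((s.1 * s.2 : ℕ) : ℝ)) * |f ((lg z r - lg z s.1) / 2)| ≤
      (4 * Cp / (θ ^ 2 * L ^ 2)) * (hh r / r) *
        ((2 * L / Real.log 2) * (∫ b in (lg z r - 1 / 2 - 1 / L)..(lg z r - 1 / 2 - 1 / L + δ), |f b|) +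
          δ * M) ∧
    ∑ s ∈ T, (1 / ((s.1 * s.2 : ℕ) : ℝ)) * t ≤
      (4 * Cp / (θ ^ 2 * L ^ 2)) * (hh r / r) * (2 * δ * L / Real.log 2 * t) := by
  classical
  have hlog : 0 < Real.log 2 := Real.log_pos (by norm_num)
  have hlog1 : Real.log 2 ≤ 1 := by
    have := Real.log_two_lt_d9
    linarith
  have hL0 : 0 < L := by rw [hL]; exact Real.log_pos hz
  have hz0 : 0 < z := by linarith
  have hr0 : (0 : ℝ) < r := by exact_mod_cast hr
  have hc : Continuous (fun x => |f x|) := (lip_cont hf).abs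
  have hint0 : 0 ≤ ∫ b in (lg z r - 1 / 2 - 1 / L)..(lg z r - 1 / 2 - 1 / L + δ), |f b| :=
    intervalIntegral.integral_nonneg (by linarith) (fun x _ => abs_nonneg _)
  have hhr := hh_nonneg r
  rcases T.eq_empty_or_nonempty with rfl | hne
  · simp only [Finset.sum_empty]
    constructor <;> positivity
  obtain ⟨s1, hs1, hmin⟩ := Finset.exists_min_image T (fun s => Nat.log 2 s.1) hne
  obtain ⟨s2, hs2, hmax⟩ := Finset.exists_max_image T (fun s => Nat.log 2 s.1) hne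
  set A := Nat.log 2 s1.1 with hA
  set B := Nat.log 2 s2.1 with hB
  -- facts on the elements
  have fact : ∀ s ∈ T, (2 ^ Nat.log 2 s.1 < s.1 ∧ s.1 ≤ 2 * 2 ^ Nat.log 2 s.1) ∧
      (Nat.log 2 s.1 * Real.log 2 ≤ Real.log s.1 ∧
        Real.log s.1 ≤ (Nat.log 2 s.1 + 1) * Real.log 2) ∧
      (θ / 2 * L ≤ Nat.log 2 s.1 * Real.log 2) ∧
      ((1 - δ) * L - Real.log r ≤ Real.log s.1 ∧ Real.log s.1 ≤ L - Real.log r) := by
    intro s hs
    obtain ⟨a1, a2, a3, a4, a5, a6⟩ := hT s hs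
    have hq0 : 0 < s.1 := a2.pos
    have hq0' : (0 : ℝ) < s.1 := by exact_mod_cast hq0
    have b1 : Real.log (z ^ θ) < Real.log s.1 :=
      Real.log_lt_log (Real.rpow_pos_of_pos hz0 _) a4
    rw [Real.log_rpow hz0, ← hL] at b1
    have b2 : 2 ^ Nat.log 2 s.1 ≤ s.1 := Nat.pow_log_le_self 2 hq0.ne'
    have b3 : s.1 < 2 ^ (Nat.log 2 s.1 + 1) := Nat.lt_pow_succ_log_self (by norm_num) s.1
    have b4 : Real.log ((2 ^ Nat.log 2 s.1 : ℕ) : ℝ) ≤ Real.log s.1 :=
      Real.log_le_log (by positivity) (by exact_mod_cast b2)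
    have b5 : Real.log s.1 ≤ Real.log ((2 ^ (Nat.log 2 s.1 + 1) : ℕ) : ℝ) :=
      Real.log_le_log hq0' (by exact_mod_cast b3.le)
    rw [Nat.cast_pow, Real.log_pow] at b4 b5
    push_cast at b4 b5
    have b6 : 2 ^ Nat.log 2 s.1 ≠ s.1 := by
      intro h
      have c1 : s.1 ≠ 2 := by
        intro h2
        rw [h2] at b1
        push_cast at b1
        linarith
      have c2 : Nat.log 2 s.1 ≠ 0 := by
        intro h3
        rw [h3] at h
        have := a2.one_lt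
        omega
      have c3 : 2 ∣ s.1 := by
        rw [← h]
        exact dvd_pow_self 2 c2
      rcases (Nat.dvd_prime a2).1 c3 with h4 | h4
      · omega
      · exact c1 h4.symm
    have b7 : Real.log ((s.1 * s.2 : ℕ) : ℝ) = Real.log s.1 + Real.log r := by
      rw [a1, Nat.cast_mul, Real.log_mul hq0'.ne' hr0.ne']
    have b8 : (1 - δ) * L ≤ Real.log ((s.1 * s.2 : ℕ) : ℝ) := by
      have := Real.log_le_log (Real.rpow_pos_of_pos hz0 _) a5
      rw [Real.log_rpow hz0, ← hL] at this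
      exact this
    have b9 : Real.log ((s.1 * s.2 : ℕ) : ℝ) ≤ L := by
      rw [hL]
      refine Real.log_le_log ?_ a6
      rw [a1]
      exact_mod_cast Nat.mul_pos hq0 hr
    rw [b7] at b8 b9
    refine ⟨⟨lt_of_le_of_ne b2 b6, ?_⟩, ⟨b4, b5⟩, by linarith, by linarith, by linarith⟩
    rw [pow_succ] at b3
    omega
  have hAB : A ≤ B := hmin s2 hs2
  obtain ⟨-, ⟨f1, f2⟩, f3, f4, f5⟩ := fact s1 hs1
  obtain ⟨-, ⟨g1, g2⟩, g3, g4, g5⟩ := fact s2 hs2
  rw [← hA] at f1 f2 f3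
  rw [← hB] at g1 g2 g3
  have hA1 : 1 ≤ A := by
    by_contra h
    have h0 : A = 0 := by omega
    rw [h0] at f3
    push_cast at f3
    nlinarith
  -- the number of blocks
  have hnum : ((B : ℝ) - A + 1) * Real.log 2 ≤ 2 * δ * L := by nlinarith
  -- the sum over the blocks
  have hmaps : ∀ s ∈ T, Nat.log 2 s.1 ∈ Finset.Ico A (B + 1) := by
    intro s hs
    rw [Finset.mem_Ico]
    exact ⟨hmin s hs, Nat.lt_succ_of_le (hmax s hs)⟩
  have hblock : ∀ i ∈ Finset.Ico A (B + 1), ∀ (g : ℕ × ℕ → ℝ) (G : ℝ), 0 ≤ G →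
      (∀ s ∈ T, Nat.log 2 s.1 = i → g s ≤ G) →
      ∑ s ∈ T with Nat.log 2 s.1 = i, (1 / ((s.1 * s.2 : ℕ) : ℝ)) * g s ≤
        (4 * Cp / (θ ^ 2 * L ^ 2)) * (hh r / r) * G := by
    intro i hi g G hG hg
    rw [Finset.mem_Ico] at hi
    have hi1 : 1 ≤ i := le_trans hA1 hi.1
    have h1 := block hCp hr hi1 (T.filter (fun s => Nat.log 2 s.1 = i)) (by
      intro s hs
      rw [Finset.mem_filter] at hs
      obtain ⟨hs, rfl⟩ := hs
      obtain ⟨a1, a2, a3, -⟩ := hT s hs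
      obtain ⟨⟨b1, b2⟩, -⟩ := fact s hs
      exact ⟨a1, b1, b2, a2, a3⟩) g G hG (by
      intro s hs
      rw [Finset.mem_filter] at hs
      exact hg s hs.1 hs.2)
    refine le_trans h1 ?_
    have h2 : θ / 2 * L ≤ i * Real.log 2 := by
      refine le_trans f3 ?_
      have : (A : ℝ) ≤ i := by exact_mod_cast hi.1
      exact mul_le_mul_of_nonneg_right this hlog.le
    have h3 : 0 < θ / 2 * L := by positivity
    have h4 : Cp / (i * Real.log 2) ^ 2 ≤ 4 * Cp / (θ ^ 2 * L ^ 2) := by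
      have h5 : Cp / (i * Real.log 2) ^ 2 ≤ Cp / (θ / 2 * L) ^ 2 := by
        refine div_le_div_of_nonneg_left hCp0.le (by positivity) ?_
        exact pow_le_pow_left₀ h3.le h2 2
      refine le_trans h5 (le_of_eq ?_)
      field_simp
      ring
    have h6 : 0 ≤ hh r / r := by positivity
    calc hh r / r * (Cp / (i * Real.log 2) ^ 2) * G
        ≤ hh r / r * (4 * Cp / (θ ^ 2 * L ^ 2)) * G :=
          mul_le_mul_of_nonneg_right (mul_le_mul_of_nonneg_left h4 h6) hG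
      _ = (4 * Cp / (θ ^ 2 * L ^ 2)) * (hh r / r) * G := by ring
  have hW : 0 ≤ (4 * Cp / (θ ^ 2 * L ^ 2)) * (hh r / r) := by positivity
  constructor
  · rw [← Finset.sum_fiberwise_of_maps_to hmaps]
    have hlen : ∀ i, ee L r i - ee L r (i + 1) = Real.log 2 / (2 * L) := by
      intro i
      unfold ee
      push_cast
      field_simp
      ring
    have hlen0 : 0 < Real.log 2 / (2 * L) := by positivity
    -- one block
    have h1 : ∀ i ∈ Finset.Ico A (B + 1),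
        ∑ s ∈ T with Nat.log 2 s.1 = i, (1 / ((s.1 * s.2 : ℕ) : ℝ)) *
          |f ((lg z r - lg z s.1) / 2)| ≤
        (4 * Cp / (θ ^ 2 * L ^ 2)) * (hh r / r) *
          ((2 * L / Real.log 2) * (∫ x in (ee L r (i + 1))..(ee L r i), |f x|) +
            M * (Real.log 2 / (2 * L))) := by
      intro i hi
      have hlt : ee L r (i + 1) < ee L r i := by linarith [hlen i]
      refine hblock i hi (fun s => |f ((lg z r - lg z s.1) / 2)|) _ ?_ ?_
      · have : 0 ≤ ∫ x in (ee L r (i + 1))..(ee L r i), |f x| :=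
          intervalIntegral.integral_nonneg hlt.le (fun x _ => abs_nonneg _)
        positivity
      · intro s hs hsi
        obtain ⟨-, ⟨b1, b2⟩, -⟩ := fact s hs
        rw [hsi] at b1 b2
        have h2 : (lg z r - lg z s.1) / 2 = (Real.log r - Real.log s.1) / (2 * L) := by
          unfold lg
          rw [← hL]
          field_simp
        rw [h2]
        have h3 := sup_le hM hf hlt (b := (Real.log r - Real.log s.1) / (2 * L)) (by
          unfold ee
          push_cast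
          exact div_le_div_of_nonneg_right (by linarith) (by positivity)) (by
          unfold ee
          exact div_le_div_of_nonneg_right (by linarith) (by positivity))
        rw [hlen i] at h3
        have h4 : 1 / (Real.log 2 / (2 * L)) = 2 * L / Real.log 2 := by
          field_simp
        rw [h4] at h3
        exact h3
    refine le_trans (Finset.sum_le_sum h1) ?_
    rw [← Finset.mul_sum]
    refine mul_le_mul_of_nonneg_left ?_ hW
    rw [Finset.sum_add_distrib, ← Finset.mul_sum, Finset.sum_const, Nat.card_Ico, nsmul_eq_mul]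
    have hsum : ∑ i ∈ Finset.Ico A (B + 1), (∫ x in (ee L r (i + 1))..(ee L r i), |f x|) =
        ∫ x in (ee L r (B + 1))..(ee L r A), |f x| := by
      have h2 := intervalIntegral.sum_integral_adjacent_intervals_Ico (f := fun x => |f x|)
        (μ := volume) (a := fun i => ee L r i) (m := A) (n := B + 1) (by omega)
        (fun k _ => hc.intervalIntegrable _ _)
      rw [intervalIntegral.integral_symm, ← h2, ← Finset.sum_neg_distrib]
      refine Finset.sum_congr rfl ?_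
      intro i _
      rw [intervalIntegral.integral_symm]
    rw [hsum]
    have hlow : lg z r - 1 / 2 - 1 / L ≤ ee L r (B + 1) := by
      unfold lg ee
      rw [← hL]
      push_cast
      have e1 : Real.log r / L - 1 / 2 - 1 / L = (2 * Real.log r - L - 2) / (2 * L) := by
        field_simp
      rw [e1]
      exact div_le_div_of_nonneg_right (by nlinarith) (by positivity)
    have hhigh : ee L r A ≤ lg z r - 1 / 2 - 1 / L + δ := by
      unfold lg ee
      rw [← hL]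
      have e1 : Real.log r / L - 1 / 2 - 1 / L + δ =
          (2 * Real.log r - L - 2 + 2 * δ * L) / (2 * L) := by
        field_simp
      rw [e1]
      exact div_le_div_of_nonneg_right (by nlinarith) (by positivity)
    have hmid : ee L r (B + 1) ≤ ee L r A := by
      unfold ee
      refine div_le_div_of_nonneg_right ?_ (by positivity)
      have : (A : ℝ) ≤ ((B + 1 : ℕ) : ℝ) := by exact_mod_cast (by omega : A ≤ B + 1)
      nlinarith
    have hint : ∫ x in (ee L r (B + 1))..(ee L r A), |f x| ≤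
        ∫ b in (lg z r - 1 / 2 - 1 / L)..(lg z r - 1 / 2 - 1 / L + δ), |f b| := by
      refine intervalIntegral.integral_mono_interval hlow hmid hhigh ?_
        (hc.intervalIntegrable _ _)
      exact Filter.Eventually.of_forall (fun x => abs_nonneg _)
    have hP : 0 ≤ 2 * L / Real.log 2 := by positivity
    have h5 := mul_le_mul_of_nonneg_left hint hP
    have h6 : ((B + 1 - A : ℕ) : ℝ) = (B : ℝ) - A + 1 := by
      rw [Nat.cast_sub (by omega)]
      push_cast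
      ring
    rw [h6]
    have h7 : ((B : ℝ) - A + 1) * (M * (Real.log 2 / (2 * L))) ≤ δ * M := by
      have h8 : ((B : ℝ) - A + 1) * (M * (Real.log 2 / (2 * L))) =
          M * ((((B : ℝ) - A + 1) * Real.log 2) / (2 * L)) := by ring
      rw [h8]
      have h9 : (((B : ℝ) - A + 1) * Real.log 2) / (2 * L) ≤ δ := by
        rw [div_le_iff₀ (by positivity)]
        linarith
      calc M * ((((B : ℝ) - A + 1) * Real.log 2) / (2 * L)) ≤ M * δ :=
            mul_le_mul_of_nonneg_left h9 hM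
        _ = δ * M := by ring
    linarith
  · rw [← Finset.sum_fiberwise_of_maps_to hmaps]
    have h1 : ∀ i ∈ Finset.Ico A (B + 1),
        ∑ s ∈ T with Nat.log 2 s.1 = i, (1 / ((s.1 * s.2 : ℕ) : ℝ)) * t ≤
        (4 * Cp / (θ ^ 2 * L ^ 2)) * (hh r / r) * t := by
      intro i hi
      exact hblock i hi (fun _ => t) t ht (fun _ _ _ => le_rfl)
    refine le_trans (Finset.sum_le_sum h1) ?_
    rw [Finset.sum_const, Nat.card_Ico, nsmul_eq_mul]
    have h6 : ((B + 1 - A : ℕ) : ℝ) = (B : ℝ) - A + 1 := by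
      rw [Nat.cast_sub (by omega)]
      push_cast
      ring
    rw [h6]
    have h9 : (B : ℝ) - A + 1 ≤ 2 * δ * L / Real.log 2 := by
      rw [le_div_iff₀ hlog]
      exact hnum
    have h10 : 0 ≤ (4 * Cp / (θ ^ 2 * L ^ 2)) * (hh r / r) * t := by positivity
    calc ((B : ℝ) - A + 1) * ((4 * Cp / (θ ^ 2 * L ^ 2)) * (hh r / r) * t)
        ≤ (2 * δ * L / Real.log 2) * ((4 * Cp / (θ ^ 2 * L ^ 2)) * (hh r / r) * t) :=
          mul_le_mul_of_nonneg_right h9 h10
      _ = _ := by ring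

end BadAux

open BadAux in
theorem badSum (h1 : Bump) (h2 : L2Main) (h3 : PairS) (h4 : Euler) : BadSum := by
  classical
  obtain ⟨Cl, hCl0, hCl⟩ := h2
  obtain ⟨Cp, hCp0, hCp⟩ := h3
  obtain ⟨Ce, hCe0, hCe, -⟩ := h4
  have hlog : 0 < Real.log 2 := Real.log_pos (by norm_num)
  refine ⟨4 * Cp * (2 * Cl / Real.log 2 + 1) + 8 * Cp * Ce / Real.log 2, by positivity, ?_⟩
  intro θ δ hθ hθ1 hδ hδ1 j0 J hJ hj
  obtain ⟨K, hK0, hK⟩ := h1.lip j0 J
  obtain ⟨z1, hz1, hz1'⟩ := hCl j0 J hJ hj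
  have hJ0 : (0 : ℝ) < J := by exact_mod_cast hJ
  have hsq : 0 < Real.sqrt (δ / J) := Real.sqrt_pos.2 (by positivity)
  set L0 : ℝ := max (max (2 * Real.log 2 / θ) (4 / δ)) (2 * δ * K * Ce / Real.sqrt (δ / J))
    with hL0
  refine ⟨max z1 (Real.exp L0), le_trans hz1 (le_max_left _ _), ?_⟩
  intro z hz S hS
  have hz1z : z1 ≤ z := le_trans (le_max_left _ _) hz
  have hz3 : 3 ≤ z := le_trans hz1 hz1z
  have hz0 : 0 < z := by linarith
  have hL : L0 ≤ Real.log z := by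
    rw [← Real.log_exp L0]
    exact Real.log_le_log (Real.exp_pos _) (le_trans (le_max_right _ _) hz)
  set L := Real.log z with hLdef
  have hLpos : 0 < L := Real.log_pos (by linarith)
  have hL1 : 2 * Real.log 2 ≤ θ * L := by
    have : 2 * Real.log 2 / θ ≤ L :=
      le_trans (le_trans (le_max_left _ _) (le_max_left _ _)) hL
    rw [div_le_iff₀ hθ] at this
    linarith
  have hL2 : 4 ≤ δ * L := by
    have : 4 / δ ≤ L := le_trans (le_trans (le_max_right _ _) (le_max_left _ _)) hL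
    rw [div_le_iff₀ hδ] at this
    linarith
  have hL3 : 2 * δ * K * Ce ≤ L * Real.sqrt (δ / J) := by
    have : 2 * δ * K * Ce / Real.sqrt (δ / J) ≤ L := le_trans (le_max_right _ _) hL
    rwa [div_le_iff₀ hsq] at this
  have herr := err_sum (hCe z hz3 0)
  have hmain := hz1' z hz1z δ hδ.le (fun r => lg z r - 1 / 2 - 1 / L)
  rw [← hLdef] at herr hmain
  -- the sum over r
  have hmaps : ∀ s ∈ S, s.2 ∈ Icc 1 ⌊z⌋₊ := by
    intro s hs
    obtain ⟨a1, a2, a3, a4, a5, a6⟩ := hS s hs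
    rw [Finset.mem_Icc]
    refine ⟨a4, Nat.le_floor ?_⟩
    refine le_trans ?_ a6
    have : s.2 ≤ s.1 * s.2 := Nat.le_mul_of_pos_left _ a1.pos
    exact_mod_cast this
  have hper : ∀ r ∈ Icc 1 ⌊z⌋₊, _ := fun r hr => per_r hCp0 hCp hθ hδ hLdef (by linarith) hL1 hL2
    (Finset.mem_Icc.1 hr).1 (S.filter (fun s => s.2 = r)) (by
      intro s hs
      rw [Finset.mem_filter] at hs
      obtain ⟨hs, hsr⟩ := hs
      obtain ⟨a1, a2, a3, a4, a5, a6⟩ := hS s hs
      exact ⟨hsr, a1, a2, a3, a5, a6⟩) (DD j0 J z r) (M := 2 * K * r.divisors.card)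
      (by positivity) (dd_lip hK z r) (r.divisors.card : ℝ) (by positivity)
  constructor
  · rw [← Finset.sum_fiberwise_of_maps_to hmaps]
    have h5 : ∀ r ∈ Icc 1 ⌊z⌋₊,
        ∑ s ∈ S with s.2 = r, (1 / ((s.1 * s.2 : ℕ) : ℝ)) *
          |DD j0 J z s.2 ((lg z s.2 - lg z s.1) / 2)| ≤
        (4 * Cp / (θ ^ 2 * L ^ 2)) * ((2 * L / Real.log 2) * ((hh r / r) *
          ∫ b in (lg z r - 1 / 2 - 1 / L)..(lg z r - 1 / 2 - 1 / L + δ), |DD j0 J z r b|) +
          2 * δ * K * (hh r / r * (r.divisors.card : ℝ))) := by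
      intro r hr
      have h6 := (hper r hr).1
      refine le_trans (le_of_eq ?_) (le_trans h6 (le_of_eq ?_))
      · refine Finset.sum_congr rfl ?_
        intro s hs
        rw [Finset.mem_filter] at hs
        rw [hs.2]
      · ring
    refine le_trans (Finset.sum_le_sum h5) ?_
    rw [← Finset.mul_sum, Finset.sum_add_distrib, ← Finset.mul_sum, ← Finset.mul_sum]
    have h7 : 0 ≤ 4 * Cp / (θ ^ 2 * L ^ 2) := by positivity
    have h8 : 0 ≤ 2 * L / Real.log 2 := by positivity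
    have h9 : 0 ≤ 2 * δ * K := by positivity
    have h10 := add_le_add (mul_le_mul_of_nonneg_left hmain h8)
      (mul_le_mul_of_nonneg_left herr h9)
    refine le_trans (mul_le_mul_of_nonneg_left h10 h7) ?_
    have h11 : 4 * Cp / (θ ^ 2 * L ^ 2) * (2 * L / Real.log 2 * (Cl * L ^ 2 * Real.sqrt (δ / J)) +
        2 * δ * K * (Ce * L ^ 2)) =
        4 * Cp / θ ^ 2 * (2 * Cl / Real.log 2 * (L * Real.sqrt (δ / J)) + 2 * δ * K * Ce) := by
      field_simp
    rw [h11]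
    have h12 : 0 ≤ 4 * Cp / θ ^ 2 := by positivity
    have h13 : 2 * Cl / Real.log 2 * (L * Real.sqrt (δ / J)) + 2 * δ * K * Ce ≤
        (2 * Cl / Real.log 2 + 1) * (L * Real.sqrt (δ / J)) := by
      linarith
    refine le_trans (mul_le_mul_of_nonneg_left h13 h12) ?_
    have h14 : (4 * Cp * (2 * Cl / Real.log 2 + 1) + 8 * Cp * Ce / Real.log 2) / θ ^ 2 * L *
        Real.sqrt (δ / J) = 4 * Cp / θ ^ 2 * ((2 * Cl / Real.log 2 + 1) *
          (L * Real.sqrt (δ / J))) + (8 * Cp * Ce / Real.log 2) / θ ^ 2 *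
          (L * Real.sqrt (δ / J)) := by
      ring
    rw [h14]
    have h15 : 0 ≤ (8 * Cp * Ce / Real.log 2) / θ ^ 2 * (L * Real.sqrt (δ / J)) := by positivity
    linarith
  · rw [← Finset.sum_fiberwise_of_maps_to hmaps]
    have h5 : ∀ r ∈ Icc 1 ⌊z⌋₊,
        ∑ s ∈ S with s.2 = r, (1 / ((s.1 * s.2 : ℕ) : ℝ)) * (s.2.divisors.card : ℝ) ≤
        (4 * Cp / (θ ^ 2 * L ^ 2)) * (2 * δ * L / Real.log 2) *
          (hh r / r * (r.divisors.card : ℝ)) := by
      intro r hr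
      have h6 := (hper r hr).2
      refine le_trans (le_of_eq ?_) (le_trans h6 (le_of_eq ?_))
      · refine Finset.sum_congr rfl ?_
        intro s hs
        rw [Finset.mem_filter] at hs
        rw [hs.2]
      · ring
    refine le_trans (Finset.sum_le_sum h5) ?_
    rw [← Finset.mul_sum]
    have h7 : 0 ≤ 4 * Cp / (θ ^ 2 * L ^ 2) * (2 * δ * L / Real.log 2) := by positivity
    refine le_trans (mul_le_mul_of_nonneg_left herr h7) ?_
    have h11 : 4 * Cp / (θ ^ 2 * L ^ 2) * (2 * δ * L / Real.log 2) * (Ce * L ^ 2) =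
        (8 * Cp * Ce / Real.log 2) / θ ^ 2 * L * δ := by
      field_simp
      ring
    rw [h11]
    have h14 : (4 * Cp * (2 * Cl / Real.log 2 + 1) + 8 * Cp * Ce / Real.log 2) / θ ^ 2 * L * δ =
        (8 * Cp * Ce / Real.log 2) / θ ^ 2 * L * δ +
        4 * Cp * (2 * Cl / Real.log 2 + 1) / θ ^ 2 * L * δ := by ring
    rw [h14]
    have h15 : 0 ≤ 4 * Cp * (2 * Cl / Real.log 2 + 1) / θ ^ 2 * L * δ := by positivity
    linarith

end Pool.Agent.Helper96.SP
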