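import Pool.Agent.Helper96.SP.St

/-!
# Project SP: module Bump

SP-1. Facts on `FF j0 J` (`ContDiffBump.nonneg_normed`, `support_normed_eq` (ball 3/2 1/2),
`contDiff_normed`, `integral_normed`). `supp`: some `psi (2^(j0+j) y) ≠ 0`, so `1 < 2^(j0+j) y < 2`,
`j < J`. `lip`: `C^1` with compact support, or finite sum of Lipschitz functions
(`ContDiff.lipschitzWith_of_hasCompactSupport`). `int`: `integral_comp_mul_left`.
-/

set_option autoImplicit false

open Finset MeasureTheory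
open scoped FourierTransform

namespace Pool.Agent.Helper96.SP

namespace BumpAux

theorem psi_nonneg (x : ℝ) : 0 ≤ psi x := bmp.nonneg_normed x

theorem psi_supp {x : ℝ} (h : psi x ≠ 0) : 1 < x ∧ x < 2 := by
  have h1 : x ∈ Function.support (bmp.normed volume) := h
  rw [bmp.support_normed_eq] at h1
  have h2 : dist x (3 / 2) < 1 / 2 := h1
  rw [Real.dist_eq, abs_lt] at h2
  constructor <;> linarith [h2.1, h2.2]

theorem psi_smooth : ContDiff ℝ (⊤ : ℕ∞) psi := bmp.contDiff_normed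

theorem psi_lip : ∃ K : NNReal, LipschitzWith K psi := by
  have h1 : ContDiff ℝ 1 psi := bmp.contDiff_normed
  have h2 : HasCompactSupport psi := bmp.hasCompactSupport_normed
  exact h1.lipschitzWith_of_hasCompactSupport h2 (by norm_num)

theorem psi_int : ∫ x, psi x = 1 := bmp.integral_normed

theorem psi_integrable : Integrable psi := bmp.integrable_normed

end BumpAux

open BumpAux

theorem bump : Bump := by
  refine ⟨?_, ?_, ?_, ?_, ?_⟩
  · intro j0 J y
    unfold FF
    exact mul_nonneg (by positivity)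
      (Finset.sum_nonneg fun j _ => mul_nonneg (by positivity) (psi_nonneg _))
  · intro j0 J y h
    unfold FF at h
    have h1 : ∑ j ∈ range J, (2 : ℝ) ^ (j0 + j) * psi ((2 : ℝ) ^ (j0 + j) * y) ≠ 0 := by
      intro h0
      exact h (by rw [h0, mul_zero])
    obtain ⟨j, hj, hj2⟩ := Finset.exists_ne_zero_of_sum_ne_zero h1
    have h3 := psi_supp (right_ne_zero_of_mul hj2)
    have hjJ : j < J := Finset.mem_range.1 hj
    have hp : (0 : ℝ) < 2 ^ (j0 + j) := by positivity
    have h4 : (1 / 2 : ℝ) ^ (j0 + j) * 2 ^ (j0 + j) = 1 := by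
      rw [← mul_pow]; norm_num
    have hq : (0 : ℝ) < (1 / 2 : ℝ) ^ (j0 + j) := by positivity
    constructor
    · have h5 : (1 / 2 : ℝ) ^ (j0 + J) ≤ (1 / 2 : ℝ) ^ (j0 + j) :=
        pow_le_pow_of_le_one (by norm_num) (by norm_num) (by omega)
      refine lt_of_le_of_lt h5 ?_
      have : (1 / 2 : ℝ) ^ (j0 + j) * 1 < (1 / 2 : ℝ) ^ (j0 + j) * (2 ^ (j0 + j) * y) :=
        mul_lt_mul_of_pos_left h3.1 hq
      rw [← mul_assoc, h4] at this
      linarith
    · have h5 : (1 / 2 : ℝ) ^ (j0 + j) ≤ (1 / 2 : ℝ) ^ j0 :=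
        pow_le_pow_of_le_one (by norm_num) (by norm_num) (by omega)
      have : (1 / 2 : ℝ) ^ (j0 + j) * (2 ^ (j0 + j) * y) < (1 / 2 : ℝ) ^ (j0 + j) * 2 :=
        mul_lt_mul_of_pos_left h3.2 hq
      rw [← mul_assoc, h4] at this
      linarith
  · intro j0 J
    unfold FF
    refine contDiff_const.mul (ContDiff.sum fun j _ => contDiff_const.mul ?_)
    exact psi_smooth.comp (contDiff_const.mul contDiff_id)
  · intro j0 J
    obtain ⟨K, hK⟩ := psi_lip
    have hK' : ∀ x y : ℝ, |psi x - psi y| ≤ K * |x - y| := by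
      intro x y
      have := hK.dist_le_mul x y
      rwa [Real.dist_eq, Real.dist_eq] at this
    refine ⟨(1 / (J : ℝ)) * ∑ j ∈ range J, (2 : ℝ) ^ (j0 + j) * (K * (2 : ℝ) ^ (j0 + j)) + 1,
      by positivity, ?_⟩
    intro x y
    have h1 : FF j0 J x - FF j0 J y = (1 / (J : ℝ)) * ∑ j ∈ range J,
        (2 : ℝ) ^ (j0 + j) * (psi ((2 : ℝ) ^ (j0 + j) * x) - psi ((2 : ℝ) ^ (j0 + j) * y)) := by
      unfold FF
      rw [← mul_sub, ← Finset.sum_sub_distrib]
      congr 1
      refine Finset.sum_congr rfl fun j _ => ?_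
      ring
    rw [h1, abs_mul, abs_of_nonneg (by positivity : (0 : ℝ) ≤ 1 / (J : ℝ))]
    have h2 : |∑ j ∈ range J,
        (2 : ℝ) ^ (j0 + j) * (psi ((2 : ℝ) ^ (j0 + j) * x) - psi ((2 : ℝ) ^ (j0 + j) * y))| ≤
        (∑ j ∈ range J, (2 : ℝ) ^ (j0 + j) * (K * (2 : ℝ) ^ (j0 + j))) * |x - y| := by
      rw [Finset.sum_mul]
      refine (Finset.abs_sum_le_sum_abs _ _).trans (Finset.sum_le_sum fun j _ => ?_)
      rw [abs_mul, abs_of_pos (by positivity : (0 : ℝ) < 2 ^ (j0 + j)), mul_assoc]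
      refine mul_le_mul_of_nonneg_left ?_ (by positivity)
      have h3 := hK' ((2 : ℝ) ^ (j0 + j) * x) ((2 : ℝ) ^ (j0 + j) * y)
      rw [← mul_sub, abs_mul, abs_of_pos (by positivity : (0 : ℝ) < 2 ^ (j0 + j))] at h3
      linarith [h3]
    calc (1 / (J : ℝ)) * |∑ j ∈ range J,
        (2 : ℝ) ^ (j0 + j) * (psi ((2 : ℝ) ^ (j0 + j) * x) - psi ((2 : ℝ) ^ (j0 + j) * y))|
        ≤ (1 / (J : ℝ)) * ((∑ j ∈ range J, (2 : ℝ) ^ (j0 + j) * (K * (2 : ℝ) ^ (j0 + j))) *
          |x - y|) := mul_le_mul_of_nonneg_left h2 (by positivity)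
      _ ≤ _ := by
        rw [add_mul, one_mul, mul_assoc]
        linarith [abs_nonneg (x - y)]
  · intro j0 J hJ
    unfold FF
    rw [integral_const_mul, integral_finsetSum]
    · have h1 : ∀ j ∈ range J, ∫ y, (2 : ℝ) ^ (j0 + j) * psi ((2 : ℝ) ^ (j0 + j) * y) = 1 := by
        intro j _
        rw [integral_const_mul, Measure.integral_comp_mul_left, psi_int]
        have hp : (0 : ℝ) < 2 ^ (j0 + j) := by positivity
        rw [abs_of_pos (inv_pos.2 hp), smul_eq_mul, mul_one, mul_inv_cancel₀ hp.ne']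
      rw [Finset.sum_congr rfl h1, Finset.sum_const, Finset.card_range, nsmul_eq_mul, mul_one]
      have : (J : ℝ) ≠ 0 := by positivity
      field_simp
    · intro j _
      exact (psi_integrable.comp_mul_left' (by positivity)).const_mul _

end Pool.Agent.Helper96.SP
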