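import Pool.Agent.Helper96.SP.St
import Pool.Agent.Helper44.MertensProd

/-!
# Project SP: module Euler

SP-5 (helper33). `r ↦ w5 r ‖ph z r ξ‖^2` is multiplicative, its sum over `r ≤ z` is at most the
Euler product over `p ≤ z`, local factor: `f(p) = (p/(p-1))^4 (1 + cos (2π ξ |p|))/p ≤
(1 + cos)/p + 60/p^2`, `f(p^j) ≤ 8 (j+1)^2/p^j`.
-/

set_option autoImplicit false

open Finset MeasureTheory
open scoped FourierTransform

namespace Pool.Agent.Helper96.SP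

namespace EulerAux

theorem summable_aux : Summable (fun i : ℕ => ((i : ℝ) + 3) ^ 2 * (1 / 2 : ℝ) ^ i) := by
  have h2 := summable_pow_mul_geometric_of_norm_lt_one 2 (show ‖(1 / 2 : ℝ)‖ < 1 by norm_num)
  have h1 := summable_pow_mul_geometric_of_norm_lt_one 1 (show ‖(1 / 2 : ℝ)‖ < 1 by norm_num)
  have h0 := summable_pow_mul_geometric_of_norm_lt_one 0 (show ‖(1 / 2 : ℝ)‖ < 1 by norm_num)
  have h3 := (h2.add (h1.mul_left 6)).add (h0.mul_left 9)
  refine h3.congr fun i => ?_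
  ring

/-- The constant. -/
noncomputable def SS : ℝ := ∑' i : ℕ, ((i : ℝ) + 3) ^ 2 * (1 / 2 : ℝ) ^ i

theorem SS_nonneg : 0 ≤ SS := tsum_nonneg fun i => by positivity

theorem local_factor {f : ℕ → ℝ} (h0 : ∀ n, 0 ≤ f n) (h1 : f 1 = 1)
    (hpp : ∀ p j : ℕ, p.Prime → 1 ≤ j → f (p ^ j) ≤ 8 * ((j : ℝ) + 1) ^ 2 / (p : ℝ) ^ j)
    {p : ℕ} (hp : p.Prime) :
    Summable (fun n : ℕ => ‖f (p ^ n)‖) ∧
      ∑' n : ℕ, f (p ^ n) ≤ 1 + f p + 8 * SS * ((1 : ℝ) / p) ^ 2 := by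
  have hp2 : (2 : ℝ) ≤ p := by exact_mod_cast hp.two_le
  have hp0 : (0 : ℝ) < p := by linarith
  have htail : ∀ i : ℕ, f (p ^ (i + 2)) ≤
      8 * ((1 : ℝ) / p) ^ 2 * (((i : ℝ) + 3) ^ 2 * (1 / 2 : ℝ) ^ i) := by
    intro i
    refine (hpp p (i + 2) hp (by omega)).trans ?_
    have h2 : ((1 : ℝ) / p) ^ i ≤ (1 / 2 : ℝ) ^ i :=
      pow_le_pow_left₀ (by positivity) (one_div_le_one_div_of_le (by norm_num) hp2) i
    have h3 : 8 * (((i + 2 : ℕ) : ℝ) + 1) ^ 2 / (p : ℝ) ^ (i + 2) =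
        8 * ((1 : ℝ) / p) ^ 2 * (((i : ℝ) + 3) ^ 2 * ((1 : ℝ) / p) ^ i) := by
      push_cast
      rw [pow_add, one_div_pow, one_div_pow]
      field_simp
      ring
    rw [h3]
    gcongr
  have hs2 : Summable (fun i : ℕ => f (p ^ (i + 2))) :=
    Summable.of_nonneg_of_le (fun i => h0 _) htail (summable_aux.mul_left _)
  have hs : Summable (fun n : ℕ => f (p ^ n)) := (summable_nat_add_iff 2).1 hs2
  refine ⟨?_, ?_⟩
  · refine hs.congr fun n => ?_
    rw [Real.norm_of_nonneg (h0 _)]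
  · rw [← hs.sum_add_tsum_nat_add 2]
    have h4 : ∑ i ∈ range 2, f (p ^ i) = 1 + f p := by
      rw [Finset.sum_range_succ, Finset.sum_range_succ, Finset.sum_range_zero, pow_zero, pow_one,
        h1, zero_add]
    rw [h4]
    have h5 : ∑' i : ℕ, f (p ^ (i + 2)) ≤
        ∑' i : ℕ, 8 * ((1 : ℝ) / p) ^ 2 * (((i : ℝ) + 3) ^ 2 * (1 / 2 : ℝ) ^ i) :=
      hs2.tsum_le_tsum htail (summable_aux.mul_left _)
    rw [tsum_mul_left] at h5
    have h6 : 8 * ((1 : ℝ) / p) ^ 2 * ∑' i : ℕ, ((i : ℝ) + 3) ^ 2 * (1 / 2 : ℝ) ^ i =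
        8 * SS * ((1 : ℝ) / p) ^ 2 := by
      unfold SS
      ring
    rw [h6] at h5
    linarith

theorem sum_le_exp : ∃ S : ℝ, 0 ≤ S ∧ ∀ f : ℕ → ℝ, (∀ n, 0 ≤ f n) → f 1 = 1 →
    (∀ {m n : ℕ}, m.Coprime n → f (m * n) = f m * f n) →
    (∀ p j : ℕ, p.Prime → 1 ≤ j → f (p ^ j) ≤ 8 * ((j : ℝ) + 1) ^ 2 / (p : ℝ) ^ j) →
    ∀ N : ℕ, ∑ r ∈ Icc 1 N, f r ≤
      Real.exp (∑ p ∈ (Icc 1 N).filter Nat.Prime, f p + S) := by
  obtain ⟨C, hC, hsq⟩ := Helper44.sum_inv_sq_le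
  refine ⟨8 * SS * C, by have := SS_nonneg; positivity, ?_⟩
  intro f h0 h1 hmul hpp N
  have hE := EulerProduct.summable_and_hasSum_smoothNumbers_prod_primesBelow_tsum h1 hmul
    (fun {p} hp => (local_factor h0 h1 hpp hp).1) (N + 1)
  have h2 : HasSum ((N + 1).smoothNumbers.indicator f)
      (∏ p ∈ (N + 1).primesBelow, ∑' n : ℕ, f (p ^ n)) := by
    rw [← hasSum_subtype_iff_indicator]
    exact hE.2
  have h3 := sum_le_hasSum (Icc 1 N) (fun i _ => Set.indicator_nonneg (fun x _ => h0 x) i) h2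
  have h4 : ∑ r ∈ Icc 1 N, (N + 1).smoothNumbers.indicator f r = ∑ r ∈ Icc 1 N, f r := by
    refine Finset.sum_congr rfl fun r hr => ?_
    rw [Finset.mem_Icc] at hr
    exact Set.indicator_of_mem (Nat.mem_smoothNumbers_of_lt (by omega) (by omega)) f
  rw [h4] at h3
  have hset : (N + 1).primesBelow = (Icc 1 N).filter Nat.Prime := by
    ext p
    rw [Nat.mem_primesBelow, Finset.mem_filter, Finset.mem_Icc]
    constructor
    · rintro ⟨ha, hb⟩
      exact ⟨⟨hb.one_le, by omega⟩, hb⟩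
    · rintro ⟨ha, hb⟩
      exact ⟨by omega, hb⟩
  rw [hset] at h3
  refine h3.trans ?_
  have h5 : ∏ p ∈ (Icc 1 N).filter Nat.Prime, ∑' n : ℕ, f (p ^ n) ≤
      ∏ p ∈ (Icc 1 N).filter Nat.Prime, Real.exp (f p + 8 * SS * ((1 : ℝ) / p) ^ 2) := by
    refine Finset.prod_le_prod (fun p _ => tsum_nonneg fun n => h0 _) fun p hp => ?_
    rw [Finset.mem_filter] at hp
    refine (local_factor h0 h1 hpp hp.2).2.trans ?_
    have := Real.add_one_le_exp (f p + 8 * SS * ((1 : ℝ) / p) ^ 2)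
    linarith
  refine h5.trans ?_
  rw [← Real.exp_sum, Finset.sum_add_distrib, ← Finset.mul_sum]
  apply Real.exp_le_exp.2
  have h6 := hsq ((Icc 1 N).filter Nat.Prime)
  have h7 := mul_le_mul_of_nonneg_left h6 (show 0 ≤ 8 * SS by have := SS_nonneg; positivity)
  linarith

/-- The character. -/
noncomputable def chi (z ξ : ℝ) (k : ℕ) : ℂ :=
  Complex.exp (2 * Real.pi * (lg z k * ξ : ℝ) * Complex.I)

theorem chi_one (z ξ : ℝ) : chi z ξ 1 = 1 := by
  unfold chi lg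
  simp

theorem chi_mul (z ξ : ℝ) {m n : ℕ} (hm : m ≠ 0) (hn : n ≠ 0) :
    chi z ξ (m * n) = chi z ξ m * chi z ξ n := by
  unfold chi
  rw [← Complex.exp_add]
  congr 1
  have h1 : lg z (m * n) = lg z m + lg z n := by
    unfold lg
    rw [Nat.cast_mul, Real.log_mul (by exact_mod_cast hm) (by exact_mod_cast hn), add_div]
  rw [h1]
  push_cast
  ring

theorem norm_chi (z ξ : ℝ) (k : ℕ) : ‖chi z ξ k‖ = 1 := by
  unfold chi
  have h1 : (2 * (Real.pi : ℂ) * ((lg z k * ξ : ℝ) : ℂ) * Complex.I) =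
      ((2 * Real.pi * (lg z k * ξ) : ℝ) : ℂ) * Complex.I := by
    push_cast
    ring
  rw [h1, Complex.norm_exp_ofReal_mul_I]

/-- The arithmetic function. -/
noncomputable def af (z ξ : ℝ) : ArithmeticFunction ℂ :=
  ⟨fun k => if k = 0 then 0 else chi z ξ k, if_pos rfl⟩

theorem af_mult (z ξ : ℝ) : (af z ξ).IsMultiplicative := by
  refine ⟨?_, ?_⟩
  · show (if (1 : ℕ) = 0 then (0 : ℂ) else chi z ξ 1) = 1
    rw [if_neg one_ne_zero, chi_one]
  · intro m n _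
    show (if m * n = 0 then (0 : ℂ) else chi z ξ (m * n)) =
      (if m = 0 then (0 : ℂ) else chi z ξ m) * (if n = 0 then (0 : ℂ) else chi z ξ n)
    rcases eq_or_ne m 0 with rfl | hm
    · simp
    · rcases eq_or_ne n 0 with rfl | hn
      · simp
      · rw [if_neg (mul_ne_zero hm hn), if_neg hm, if_neg hn, chi_mul z ξ hm hn]

theorem ph_eq (z : ℝ) (r : ℕ) (ξ : ℝ) :
    ph z r ξ = (af z ξ * (ArithmeticFunction.zeta : ArithmeticFunction ℂ)) r := by
  rw [ArithmeticFunction.coe_mul_zeta_apply]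
  unfold ph
  refine Finset.sum_congr rfl fun k hk => ?_
  have hk0 : k ≠ 0 := (Nat.pos_of_mem_divisors hk).ne'
  show _ = if k = 0 then (0 : ℂ) else chi z ξ k
  rw [if_neg hk0]
  rfl

theorem ph_mul (z ξ : ℝ) {m n : ℕ} (h : m.Coprime n) :
    ph z (m * n) ξ = ph z m ξ * ph z n ξ := by
  rw [ph_eq, ph_eq, ph_eq]
  exact ((af_mult z ξ).mul ArithmeticFunction.isMultiplicative_zeta.natCast).map_mul_of_coprime h

theorem ph_one (z ξ : ℝ) : ph z 1 ξ = 1 := by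
  unfold ph
  rw [Nat.divisors_one, Finset.sum_singleton]
  exact chi_one z ξ

theorem norm_ph_le (z : ℝ) (r : ℕ) (ξ : ℝ) : ‖ph z r ξ‖ ≤ r.divisors.card := by
  unfold ph
  refine (norm_sum_le _ _).trans ?_
  rw [Finset.card_eq_sum_ones, Nat.cast_sum]
  refine Finset.sum_le_sum fun k _ => ?_
  have := norm_chi z ξ k
  unfold chi at this
  rw [this]
  norm_num

theorem hh_mul {m n : ℕ} (h : m.Coprime n) : hh (m * n) = hh m * hh n := by
  unfold hh
  rw [Nat.totient_mul h]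
  push_cast
  rw [mul_div_mul_comm, mul_pow]

theorem hh_nonneg (r : ℕ) : 0 ≤ hh r := by
  unfold hh; positivity

theorem hh_prime_pow {p j : ℕ} (hp : p.Prime) (hj : 1 ≤ j) :
    hh (p ^ j) = ((p : ℝ) / (p - 1)) ^ 2 := by
  unfold hh
  obtain ⟨i, rfl⟩ := Nat.exists_eq_add_of_le' hj
  rw [Nat.totient_prime_pow_succ hp]
  have hp1 : 1 ≤ p := hp.one_le
  have hp0 : (p : ℝ) ^ i ≠ 0 := pow_ne_zero _ (by exact_mod_cast hp.ne_zero)
  push_cast [Nat.cast_sub hp1]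
  have h1 : (p : ℝ) ^ (i + 1) / ((p : ℝ) ^ i * ((p : ℝ) - 1)) = (p : ℝ) / (p - 1) := by
    rw [pow_succ (p : ℝ) i, mul_div_mul_left _ _ hp0]
  rw [h1]

theorem ratio_le {p : ℕ} (hp : p.Prime) : 0 < (p : ℝ) / (p - 1) ∧ (p : ℝ) / (p - 1) ≤ 2 ∧
    ((p : ℝ) / (p - 1)) ^ 4 ≤ 1 + 30 / p := by
  have hp2 : (2 : ℝ) ≤ p := by exact_mod_cast hp.two_le
  have hp1 : (0 : ℝ) < (p : ℝ) - 1 := by linarith
  have hp0 : (0 : ℝ) < p := by linarith
  refine ⟨by positivity, by rw [div_le_iff₀ hp1]; linarith, ?_⟩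
  set x : ℝ := 1 / ((p : ℝ) - 1) with hx
  have hx0 : 0 < x := by positivity
  have hx1 : x ≤ 1 := by
    rw [hx, div_le_one hp1]; linarith
  have hx2 : x ≤ 2 / p := by
    rw [hx, div_le_div_iff₀ hp1 hp0]; linarith
  have h1 : (p : ℝ) / (p - 1) = 1 + x := by
    rw [hx]; field_simp; ring
  rw [h1]
  have h2 : (1 + x) ^ 4 ≤ 1 + 15 * x := by
    have h3 : x ^ 2 ≤ x := by nlinarith
    have h4 : x ^ 3 ≤ x := by nlinarith [sq_nonneg x]
    have h5 : x ^ 4 ≤ x := by nlinarith [pow_pos hx0 3]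
    nlinarith
  have h6 : 15 * x ≤ 30 / p := by
    calc 15 * x ≤ 15 * (2 / p) := by linarith
      _ = 30 / p := by ring
  linarith

/-- The function. -/
noncomputable def fe (z ξ : ℝ) (r : ℕ) : ℝ := w5 r * ‖ph z r ξ‖ ^ 2

theorem w5_nonneg (r : ℕ) : 0 ≤ w5 r := by
  unfold w5; positivity

theorem fe_nonneg (z ξ : ℝ) (r : ℕ) : 0 ≤ fe z ξ r :=
  mul_nonneg (w5_nonneg r) (by positivity)

theorem fe_one (z ξ : ℝ) : fe z ξ 1 = 1 := by
  unfold fe w5 hh
  rw [ph_one]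
  simp

theorem w5_mul {m n : ℕ} (h : m.Coprime n) : w5 (m * n) = w5 m * w5 n := by
  unfold w5
  rw [hh_mul h, h.primeFactors_mul, Finset.card_union_of_disjoint h.disjoint_primeFactors, pow_add]
  push_cast
  rw [mul_pow]
  rw [div_mul_div_comm]
  congr 1
  ring

theorem fe_mul (z ξ : ℝ) {m n : ℕ} (h : m.Coprime n) : fe z ξ (m * n) = fe z ξ m * fe z ξ n := by
  unfold fe
  rw [w5_mul h, ph_mul z ξ h, norm_mul, mul_pow]
  ring

theorem w5_prime_pow {p j : ℕ} (hp : p.Prime) (hj : 1 ≤ j) :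
    w5 (p ^ j) = ((p : ℝ) / (p - 1)) ^ 4 / (2 * (p : ℝ) ^ j) := by
  unfold w5
  rw [hh_prime_pow hp hj, Nat.primeFactors_prime_pow (by omega) hp, Finset.card_singleton, pow_one]
  push_cast
  rw [← pow_mul]

theorem fe_prime_pow (z ξ : ℝ) (p j : ℕ) (hp : p.Prime) (hj : 1 ≤ j) :
    fe z ξ (p ^ j) ≤ 8 * ((j : ℝ) + 1) ^ 2 / (p : ℝ) ^ j := by
  unfold fe
  rw [w5_prime_pow hp hj]
  have h1 : ‖ph z (p ^ j) ξ‖ ≤ (j : ℝ) + 1 := by
    refine (norm_ph_le z (p ^ j) ξ).trans ?_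
    rw [Nat.divisors_prime_pow hp, Finset.card_map, Finset.card_range]
    push_cast
    exact le_rfl
  have hp0 : (0 : ℝ) < p := by exact_mod_cast hp.pos
  obtain ⟨h2, h3, _⟩ := ratio_le hp
  have h4 : ((p : ℝ) / (p - 1)) ^ 4 ≤ 16 := by
    calc ((p : ℝ) / (p - 1)) ^ 4 ≤ 2 ^ 4 := pow_le_pow_left₀ h2.le h3 4
      _ = 16 := by norm_num
  have h5 : ‖ph z (p ^ j) ξ‖ ^ 2 ≤ ((j : ℝ) + 1) ^ 2 := pow_le_pow_left₀ (norm_nonneg _) h1 2
  calc ((p : ℝ) / (p - 1)) ^ 4 / (2 * (p : ℝ) ^ j) * ‖ph z (p ^ j) ξ‖ ^ 2 ≤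
      16 / (2 * (p : ℝ) ^ j) * ((j : ℝ) + 1) ^ 2 := by gcongr
    _ = 8 * ((j : ℝ) + 1) ^ 2 / (p : ℝ) ^ j := by
      field_simp
      ring

theorem fe_prime (z ξ : ℝ) {p : ℕ} (hp : p.Prime) :
    fe z ξ p ≤ 1 / (p : ℝ) + Real.cos (2 * Real.pi * (lg z p * ξ)) / p + 60 * (1 / (p : ℝ)) ^ 2 := by
  have hp0 : (0 : ℝ) < p := by exact_mod_cast hp.pos
  have h1 : ph z p ξ = 1 + chi z ξ p := by
    unfold ph
    rw [Nat.Prime.divisors hp, Finset.sum_pair hp.one_lt.ne]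
    congr 1
    exact chi_one z ξ
  have h2 : ‖ph z p ξ‖ ^ 2 = 2 + 2 * Real.cos (2 * Real.pi * (lg z p * ξ)) := by
    rw [h1]
    have h3 : chi z ξ p = Complex.exp (((2 * Real.pi * (lg z p * ξ) : ℝ) : ℂ) * Complex.I) := by
      unfold chi
      congr 1
      push_cast
      ring
    rw [h3, ← Complex.normSq_eq_norm_sq, Complex.exp_mul_I, Complex.normSq_apply]
    have h4 := Real.sin_sq_add_cos_sq (2 * Real.pi * (lg z p * ξ))
    rw [← Complex.ofReal_cos, ← Complex.ofReal_sin]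
    simp only [Complex.add_re, Complex.one_re, Complex.ofReal_re, Complex.mul_re, Complex.I_re,
      Complex.ofReal_im, Complex.I_im, Complex.add_im, Complex.one_im, Complex.mul_im]
    nlinarith [h4]
  have h5 : w5 p = ((p : ℝ) / (p - 1)) ^ 4 / (2 * (p : ℝ)) := by
    have := w5_prime_pow hp (le_refl 1)
    rwa [pow_one, pow_one] at this
  unfold fe
  rw [h5, h2]
  obtain ⟨_, _, h6⟩ := ratio_le hp
  have hc := Real.neg_one_le_cos (2 * Real.pi * (lg z p * ξ))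
  have hc' := Real.cos_le_one (2 * Real.pi * (lg z p * ξ))
  set c := Real.cos (2 * Real.pi * (lg z p * ξ)) with hcdef
  calc ((p : ℝ) / (p - 1)) ^ 4 / (2 * (p : ℝ)) * (2 + 2 * c) =
      ((p : ℝ) / (p - 1)) ^ 4 * ((1 + c) / p) := by field_simp
    _ ≤ (1 + 30 / p) * ((1 + c) / p) :=
        mul_le_mul_of_nonneg_right h6 (div_nonneg (by linarith) hp0.le)
    _ = 1 / p + c / p + 30 * (1 + c) * (1 / p) ^ 2 := by field_simp
    _ ≤ 1 / p + c / p + 60 * (1 / p) ^ 2 := by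
        have h7 : 0 ≤ (1 / (p : ℝ)) ^ 2 := by positivity
        have h8 : 30 * (1 + c) ≤ 60 := by linarith
        have := mul_le_mul_of_nonneg_right h8 h7
        linarith

theorem main_bound : ∃ B : ℝ, ∀ z : ℝ, 3 ≤ z → ∀ ξ : ℝ,
    ∑ r ∈ Icc 1 ⌊z⌋₊, w5 r * ‖ph z r ξ‖ ^ 2 ≤ Real.exp (Real.log (Real.log z) + B +
      ∑ p ∈ (Icc 1 ⌊z⌋₊).filter Nat.Prime, Real.cos (2 * Real.pi * (lg z p * ξ)) / (p : ℝ)) := by
  obtain ⟨S, hS, h⟩ := sum_le_exp
  obtain ⟨C, hC, hsq⟩ := Helper44.sum_inv_sq_le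
  obtain ⟨C₁, hC₁, hM⟩ := Helper44.sum_primesUpTo_bounds
  refine ⟨S + 60 * C + C₁, ?_⟩
  intro z hz ξ
  refine (h (fe z ξ) (fe_nonneg z ξ) (fe_one z ξ) (fun {m n} => fe_mul z ξ)
    (fe_prime_pow z ξ) ⌊z⌋₊).trans ?_
  apply Real.exp_le_exp.2
  have h1 : ∑ p ∈ (Icc 1 ⌊z⌋₊).filter Nat.Prime, fe z ξ p ≤
      ∑ p ∈ (Icc 1 ⌊z⌋₊).filter Nat.Prime, (1 / (p : ℝ) +
        Real.cos (2 * Real.pi * (lg z p * ξ)) / p + 60 * (1 / (p : ℝ)) ^ 2) :=
    Finset.sum_le_sum fun p hp => fe_prime z ξ (Finset.mem_filter.1 hp).2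
  rw [Finset.sum_add_distrib, Finset.sum_add_distrib, ← Finset.mul_sum] at h1
  have h2 := hsq ((Icc 1 ⌊z⌋₊).filter Nat.Prime)
  have h3 := (abs_le.1 (hM z (by linarith))).2
  have h4 : ∑ q ∈ Helper44.primesUpTo z, (1 : ℝ) / q =
      ∑ p ∈ (Icc 1 ⌊z⌋₊).filter Nat.Prime, 1 / (p : ℝ) := by
    unfold Helper44.primesUpTo
    refine Finset.sum_congr ?_ fun _ _ => rfl
    ext p
    rw [Finset.mem_filter, Finset.mem_filter, Finset.mem_Icc, Finset.mem_Ioc]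
    exact Iff.rfl
  rw [h4] at h3
  linarith

end EulerAux

theorem euler (h : TwM) : Euler := by
  obtain ⟨B, hB⟩ := EulerAux.main_bound
  obtain ⟨C₁, hC₁, hM⟩ := Helper44.sum_primesUpTo_bounds
  obtain ⟨C₂, hT⟩ := h
  refine ⟨Real.exp (B + C₁) + Real.exp (B + C₂), by positivity, ?_, ?_⟩
  · intro z hz ξ
    refine (hB z hz ξ).trans ?_
    have hL : 1 < Real.log z := by
      rw [← Real.log_exp 1]
      apply Real.log_lt_log (Real.exp_pos 1)
      have := Real.exp_one_lt_d9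
      linarith
    have h1 : ∑ p ∈ (Icc 1 ⌊z⌋₊).filter Nat.Prime,
        Real.cos (2 * Real.pi * (lg z p * ξ)) / (p : ℝ) ≤ Real.log (Real.log z) + C₁ := by
      have h2 := (abs_le.1 (hM z (by linarith))).2
      have h4 : ∑ q ∈ Helper44.primesUpTo z, (1 : ℝ) / q =
          ∑ p ∈ (Icc 1 ⌊z⌋₊).filter Nat.Prime, 1 / (p : ℝ) := by
        unfold Helper44.primesUpTo
        refine Finset.sum_congr ?_ fun _ _ => rfl
        ext p
        rw [Finset.mem_filter, Finset.mem_filter, Finset.mem_Icc, Finset.mem_Ioc]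
        exact Iff.rfl
      rw [h4] at h2
      have h5 : ∑ p ∈ (Icc 1 ⌊z⌋₊).filter Nat.Prime,
          Real.cos (2 * Real.pi * (lg z p * ξ)) / (p : ℝ) ≤
          ∑ p ∈ (Icc 1 ⌊z⌋₊).filter Nat.Prime, 1 / (p : ℝ) :=
        Finset.sum_le_sum fun p _ =>
          div_le_div_of_nonneg_right (Real.cos_le_one _) (Nat.cast_nonneg p)
      linarith
    have h6 : Real.exp (Real.log (Real.log z) + B + ∑ p ∈ (Icc 1 ⌊z⌋₊).filter Nat.Prime,
        Real.cos (2 * Real.pi * (lg z p * ξ)) / (p : ℝ)) ≤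
        Real.exp (Real.log (Real.log z) + B + (Real.log (Real.log z) + C₁)) :=
      Real.exp_le_exp.2 (by linarith)
    refine h6.trans ?_
    have h7 : Real.exp (Real.log (Real.log z) + B + (Real.log (Real.log z) + C₁)) =
        Real.exp (B + C₁) * Real.log z ^ 2 := by
      have h8 : Real.log (Real.log z) + B + (Real.log (Real.log z) + C₁) =
          (B + C₁) + (Real.log (Real.log z) + Real.log (Real.log z)) := by ring
      rw [h8, Real.exp_add (B + C₁), Real.exp_add (Real.log (Real.log z)),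
        Real.exp_log (by linarith)]
      ring
    rw [h7]
    have h9 : 0 < Real.exp (B + C₂) * Real.log z ^ 2 := by positivity
    linarith
  · intro A hA
    obtain ⟨z0, hz0, hz⟩ := hT A hA
    refine ⟨z0, hz0, ?_⟩
    intro z hzz ξ hξ
    refine (hB z (by linarith) ξ).trans ?_
    have hL : 1 < Real.log z := by
      rw [← Real.log_exp 1]
      apply Real.log_lt_log (Real.exp_pos 1)
      have := Real.exp_one_lt_d9
      linarith
    have h1 := hz z hzz ξ hξ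
    have hξ1 : 0 < 1 + |ξ| := by positivity
    have h6 : Real.exp (Real.log (Real.log z) + B + ∑ p ∈ (Icc 1 ⌊z⌋₊).filter Nat.Prime,
        Real.cos (2 * Real.pi * (lg z p * ξ)) / (p : ℝ)) ≤
        Real.exp (Real.log (Real.log z) + B + (Real.log (Real.log z) - Real.log (1 + |ξ|) + C₂)) :=
      Real.exp_le_exp.2 (by linarith)
    refine h6.trans ?_
    have h7 : Real.exp (Real.log (Real.log z) + B +
        (Real.log (Real.log z) - Real.log (1 + |ξ|) + C₂)) =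
        Real.exp (B + C₂) * Real.log z ^ 2 / (1 + |ξ|) := by
      have h8 : Real.log (Real.log z) + B + (Real.log (Real.log z) - Real.log (1 + |ξ|) + C₂) =
          (B + C₂) + (Real.log (Real.log z) + Real.log (Real.log z)) - Real.log (1 + |ξ|) := by ring
      rw [h8, Real.exp_sub, Real.exp_add (B + C₂), Real.exp_add (Real.log (Real.log z)),
        Real.exp_log (by linarith), Real.exp_log hξ1]
      ring
    rw [h7]
    have h9 : Real.exp (B + C₂) * Real.log z ^ 2 / (1 + |ξ|) ≤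
        (Real.exp (B + C₁) + Real.exp (B + C₂)) * Real.log z ^ 2 / (1 + |ξ|) := by
      apply div_le_div_of_nonneg_right _ hξ1.le
      apply mul_le_mul_of_nonneg_right _ (by positivity)
      have := Real.exp_pos (B + C₁)
      linarith
    exact h9

end Pool.Agent.Helper96.SP
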