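import Pool.Agent.Helper96.SP.St

/-!
# Project SP: module FT

SP-2. `psit x = psi x - psi (-x)`, `Ft = (1/J) ∑ 2^(j0+j) psit (2^(j0+j) ·)`, so
`FtH ξ = (1/J) ∑_j P (2^(-(j0+j)) ξ)`, `P = 𝓕 psit`. `|P u| ≤ C min (|u|, 1/|u|)`, and with
`φ x = x / (1 + x)` one has `min (x, 1/x) ≤ 6 (φ x - φ (x/2))`, which telescopes.
-/

set_option autoImplicit false

open Finset MeasureTheory
open scoped FourierTransform

namespace Pool.Agent.Helper96.SP

namespace FTAux

/-- the odd bump -/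
noncomputable def g (x : ℝ) : ℂ := ((psi x - psi (-x) : ℝ) : ℂ)

/-- its Fourier transform -/
noncomputable def P (u : ℝ) : ℂ := 𝓕 g u

theorem psi_contDiff : ContDiff ℝ (⊤ : ℕ∞) psi := bmp.contDiff_normed

theorem psi_cs : HasCompactSupport psi := bmp.hasCompactSupport_normed

theorem g_contDiff : ContDiff ℝ (⊤ : ℕ∞) g := by
  have h1 : ContDiff ℝ (⊤ : ℕ∞) (fun x : ℝ => psi x - psi (-x)) :=
    psi_contDiff.sub (psi_contDiff.comp contDiff_neg)
  exact Complex.ofRealCLM.contDiff.comp h1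

theorem psi_neg_cs : HasCompactSupport (fun x : ℝ => psi (-x)) :=
  psi_cs.comp_homeomorph (Homeomorph.neg ℝ)

theorem g_cs : HasCompactSupport g := by
  have h1 : HasCompactSupport (fun x : ℝ => psi x - psi (-x)) := psi_cs.sub psi_neg_cs
  exact h1.comp_left (g := fun x : ℝ => (x : ℂ)) (by simp)

theorem g_cont : Continuous g := g_contDiff.continuous

theorem g_int : Integrable g := g_cont.integrable_of_hasCompactSupport g_cs

theorem g_diff : Differentiable ℝ g := g_contDiff.differentiable (by simp)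

theorem dg_cont : Continuous (deriv g) := g_contDiff.continuous_deriv (by simp)

theorem dg_int : Integrable (deriv g) :=
  dg_cont.integrable_of_hasCompactSupport g_cs.deriv

theorem psi_int : Integrable psi := bmp.integrable_normed

theorem g_integral : ∫ x, g x = 0 := by
  have h1 : ∫ x, g x = ((∫ x : ℝ, (psi x - psi (-x)) : ℝ) : ℂ) := by
    unfold g
    exact integral_ofReal
  rw [h1, integral_sub psi_int (psi_int.comp_neg), integral_neg_eq_self (f := psi), sub_self]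
  simp

theorem P_eq (u : ℝ) : P u = ∫ v : ℝ, Complex.exp (↑(-2 * Real.pi * v * u) * Complex.I) • g v := by
  unfold P
  rw [Real.fourier_real_eq_integral_exp_smul]

theorem exp_int (u : ℝ) :
    Integrable (fun v : ℝ => Complex.exp (↑(-2 * Real.pi * v * u) * Complex.I) • g v) := by
  have h : Continuous (fun v : ℝ => Complex.exp (↑(-2 * Real.pi * v * u) * Complex.I)) := by
    fun_prop
  refine Continuous.integrable_of_hasCompactSupport (h.smul g_cont) ?_
  have h2 : HasCompactSupport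
      ((fun v : ℝ => Complex.exp (↑(-2 * Real.pi * v * u) * Complex.I)) • g) := g_cs.smul_left
  exact h2

theorem vg_int : Integrable (fun v : ℝ => |v| * ‖g v‖) := by
  refine Continuous.integrable_of_hasCompactSupport (continuous_abs.mul g_cont.norm) ?_
  exact g_cs.norm.mul_left

/-- `|P u| ≤ C |u|` -/
theorem P_le_one (u : ℝ) : ‖P u‖ ≤ (2 * Real.pi * ∫ v : ℝ, |v| * ‖g v‖) * |u| := by
  have h1 : P u = ∫ v : ℝ, (Complex.exp (↑(-2 * Real.pi * v * u) * Complex.I) - 1) • g v := by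
    rw [P_eq]
    have h2 : ∀ v : ℝ, (Complex.exp (↑(-2 * Real.pi * v * u) * Complex.I) - 1) • g v =
        Complex.exp (↑(-2 * Real.pi * v * u) * Complex.I) • g v - g v := by
      intro v
      rw [sub_smul, one_smul]
    simp_rw [h2]
    rw [integral_sub (exp_int u) g_int, g_integral, sub_zero]
  rw [h1]
  refine (norm_integral_le_integral_norm _).trans ?_
  have h3 : (2 * Real.pi * ∫ v : ℝ, |v| * ‖g v‖) * |u| =
      ∫ v : ℝ, (2 * Real.pi * |u|) * (|v| * ‖g v‖) := by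
    rw [integral_const_mul]
    ring
  rw [h3]
  refine integral_mono_of_nonneg (Filter.Eventually.of_forall fun v => norm_nonneg _)
    (vg_int.const_mul _) (Filter.Eventually.of_forall fun v => ?_)
  simp only
  rw [norm_smul]
  have h4 : ‖Complex.exp (↑(-2 * Real.pi * v * u) * Complex.I) - 1‖ ≤ ‖(-2 * Real.pi * v * u)‖ := by
    rw [mul_comm (↑(-2 * Real.pi * v * u) : ℂ)]
    exact Real.norm_exp_I_mul_ofReal_sub_one_le
  have h5 : ‖(-2 * Real.pi * v * u)‖ = 2 * Real.pi * |u| * |v| := by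
    rw [Real.norm_eq_abs, abs_mul, abs_mul, abs_mul, abs_neg, abs_of_pos Real.pi_pos]
    norm_num
    ring
  calc _ ≤ (2 * Real.pi * |u| * |v|) * ‖g v‖ := by
        rw [← h5]
        exact mul_le_mul_of_nonneg_right h4 (norm_nonneg _)
    _ = _ := by ring

/-- `|P u| |u| ≤ C` -/
theorem P_le_inv (u : ℝ) : ‖P u‖ * |u| ≤ ∫ v : ℝ, ‖deriv g v‖ := by
  have h1 : 𝓕 (deriv g) u = (2 * Real.pi * Complex.I * u) • (𝓕 g u) := by
    rw [Real.fourier_deriv g_int g_diff dg_int]
  have h2 : ‖𝓕 (deriv g) u‖ ≤ ∫ v : ℝ, ‖deriv g v‖ := by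
    rw [Real.fourier_real_eq_integral_exp_smul]
    refine (norm_integral_le_integral_norm _).trans (le_of_eq ?_)
    refine integral_congr_ae (Filter.Eventually.of_forall fun v => ?_)
    simp only
    rw [norm_smul, Complex.norm_exp_ofReal_mul_I, one_mul]
  rw [h1, norm_smul] at h2
  have h3 : ‖(2 * Real.pi * Complex.I * u : ℂ)‖ = 2 * Real.pi * |u| := by
    rw [norm_mul, norm_mul, norm_mul, Complex.norm_I, Complex.norm_real, Complex.norm_real,
      Real.norm_eq_abs, Real.norm_eq_abs, abs_of_pos Real.pi_pos]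
    norm_num
  rw [h3] at h2
  have h4 : ‖P u‖ * |u| ≤ 2 * Real.pi * |u| * ‖𝓕 g u‖ := by
    have h5 : (1 : ℝ) ≤ 2 * Real.pi := by
      have := Real.pi_gt_three
      linarith
    have h6 : 0 ≤ |u| * ‖P u‖ := by positivity
    have h7 : P u = 𝓕 g u := rfl
    rw [← h7]
    nlinarith
  exact h4.trans h2

/-- the telescoping function -/
noncomputable def phi (x : ℝ) : ℝ := x / (1 + x)

theorem phi_diff {x : ℝ} (hx : 0 ≤ x) : phi x - phi (x / 2) = x / ((1 + x) * (2 + x)) := by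
  unfold phi
  have h1 : (1 + x) ≠ 0 := by positivity
  have h2 : (2 + x) ≠ 0 := by positivity
  have h3 : (1 + x / 2) ≠ 0 := by positivity
  field_simp
  ring

theorem phi_nonneg {x : ℝ} (hx : 0 ≤ x) : 0 ≤ phi x := by
  unfold phi
  positivity

theorem phi_le_one {x : ℝ} (hx : 0 ≤ x) : phi x ≤ 1 := by
  unfold phi
  rw [div_le_one (by positivity)]
  linarith

/-- both bounds in telescoping form -/
theorem P_phi {C : ℝ} (hC : 0 ≤ C) (h1 : ∀ u, ‖P u‖ ≤ C * |u|) (h2 : ∀ u, ‖P u‖ * |u| ≤ C)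
    (u : ℝ) : ‖P u‖ ≤ 6 * C * (phi |u| - phi (|u| / 2)) := by
  rw [phi_diff (abs_nonneg u)]
  have h3 := h1 u
  have h4 := h2 u
  set x := |u| with hx
  have hx0 : 0 ≤ x := abs_nonneg u
  have hpos : 0 < (1 + x) * (2 + x) := by positivity
  rw [← mul_div_assoc, le_div_iff₀ hpos]
  have hP := norm_nonneg (P u)
  rcases le_total x 1 with hx1 | hx1
  · have h5 : (1 + x) * (2 + x) ≤ 6 := by nlinarith
    calc ‖P u‖ * ((1 + x) * (2 + x)) ≤ (C * x) * 6 :=
          mul_le_mul h3 h5 hpos.le (by positivity)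
      _ = 6 * C * x := by ring
  · have h5 : (1 + x) * (2 + x) ≤ 6 * x ^ 2 := by nlinarith
    calc ‖P u‖ * ((1 + x) * (2 + x)) ≤ ‖P u‖ * (6 * x ^ 2) :=
          mul_le_mul_of_nonneg_left h5 hP
      _ = 6 * x * (‖P u‖ * x) := by ring
      _ ≤ 6 * x * C := mul_le_mul_of_nonneg_left h4 (by positivity)
      _ = 6 * C * x := by ring

theorem sum_phi (t : ℝ) (ht : 0 ≤ t) (J : ℕ) :
    ∑ j ∈ range J, (phi (t / 2 ^ j) - phi (t / 2 ^ j / 2)) ≤ 1 := by
  have h1 : ∀ j, phi (t / 2 ^ j / 2) = phi (t / 2 ^ (j + 1)) := by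
    intro j
    rw [div_div, ← pow_succ]
  simp only [h1]
  have h2 := Finset.sum_range_sub' (fun j => phi (t / 2 ^ j)) J
  rw [h2]
  have h3 := phi_le_one (x := t / 2 ^ 0) (by positivity)
  have h4 := phi_nonneg (x := t / 2 ^ J) (by positivity)
  linarith

theorem scale (a : ℝ) (ha : 0 < a) (ξ : ℝ) :
    ∫ v : ℝ, Complex.exp (↑(-2 * Real.pi * v * ξ) * Complex.I) • ((a : ℂ) * g (a * v)) =
      P (ξ / a) := by
  have h1 := MeasureTheory.Measure.integral_comp_mul_left
    (fun y : ℝ => Complex.exp (↑(-2 * Real.pi * y * (ξ / a)) * Complex.I) • g y) a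
  rw [← P_eq] at h1
  have h2 : ∀ v : ℝ, Complex.exp (↑(-2 * Real.pi * v * ξ) * Complex.I) • ((a : ℂ) * g (a * v)) =
      (a : ℂ) * (Complex.exp (↑(-2 * Real.pi * (a * v) * (ξ / a)) * Complex.I) • g (a * v)) := by
    intro v
    have h3 : -2 * Real.pi * (a * v) * (ξ / a) = -2 * Real.pi * v * ξ := by
      field_simp
    rw [h3]
    simp only [smul_eq_mul]
    ring
  simp_rw [h2]
  rw [integral_const_mul, h1, abs_of_pos (inv_pos.2 ha)]
  rw [Complex.real_smul, ← mul_assoc]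
  have : (a : ℂ) * ((a⁻¹ : ℝ) : ℂ) = 1 := by
    rw [← Complex.ofReal_mul, mul_inv_cancel₀ ha.ne', Complex.ofReal_one]
  rw [this, one_mul]

theorem scale_int (a : ℝ) (ha : 0 < a) (ξ : ℝ) :
    Integrable (fun v : ℝ => Complex.exp (↑(-2 * Real.pi * v * ξ) * Complex.I) •
      ((a : ℂ) * g (a * v))) := by
  have h : Continuous (fun v : ℝ => Complex.exp (↑(-2 * Real.pi * v * ξ) * Complex.I)) := by
    fun_prop
  refine Continuous.integrable_of_hasCompactSupport (h.smul
    (continuous_const.mul (g_cont.comp (continuous_const.mul continuous_id)))) ?_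
  have h1 : HasCompactSupport (fun v : ℝ => g (a * v)) :=
    g_cs.comp_homeomorph (Homeomorph.mulLeft₀ a ha.ne')
  have h3 : HasCompactSupport (fun v : ℝ => (a : ℂ) * g (a * v)) := h1.mul_left
  have h2 : HasCompactSupport
      ((fun v : ℝ => Complex.exp (↑(-2 * Real.pi * v * ξ) * Complex.I)) •
        (fun v : ℝ => (a : ℂ) * g (a * v))) := h3.smul_left
  exact h2

theorem FtH_eq (j0 J : ℕ) (ξ : ℝ) :
    FtH j0 J ξ = (1 / (J : ℂ)) * ∑ j ∈ range J, P (ξ / 2 ^ (j0 + j)) := by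
  unfold FtH
  rw [Real.fourier_real_eq_integral_exp_smul]
  have h1 : ∀ v : ℝ, Complex.exp (↑(-2 * Real.pi * v * ξ) * Complex.I) • ((Ft j0 J v : ℝ) : ℂ) =
      (1 / (J : ℂ)) * ∑ j ∈ range J, Complex.exp (↑(-2 * Real.pi * v * ξ) * Complex.I) •
        (((2 : ℝ) ^ (j0 + j) : ℝ) * g ((2 : ℝ) ^ (j0 + j) * v)) := by
    intro v
    have h2 : Ft j0 J v = (1 / (J : ℝ)) * ∑ j ∈ range J, (2 : ℝ) ^ (j0 + j) *
        (psi ((2 : ℝ) ^ (j0 + j) * v) - psi (-((2 : ℝ) ^ (j0 + j) * v))) := by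
      unfold Ft FF
      rw [← mul_sub, ← Finset.sum_sub_distrib]
      congr 1
      refine Finset.sum_congr rfl fun j _ => ?_
      rw [mul_neg, mul_sub]
    rw [h2]
    unfold g
    push_cast
    rw [smul_eq_mul, Finset.mul_sum, Finset.mul_sum, Finset.mul_sum]
    refine Finset.sum_congr rfl fun j _ => ?_
    rw [smul_eq_mul]
    ring
  simp_rw [h1]
  rw [integral_const_mul, integral_finsetSum]
  · congr 1
    refine Finset.sum_congr rfl fun j _ => ?_
    exact scale _ (by positivity) ξ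
  · intro j _
    exact scale_int _ (by positivity) ξ

end FTAux

open FTAux in
theorem ftBound : FTbound := by
  set C1 : ℝ := 2 * Real.pi * ∫ v : ℝ, |v| * ‖g v‖ with hC1
  set C2 : ℝ := ∫ v : ℝ, ‖deriv g v‖ with hC2
  have hC1' : 0 ≤ C1 := by
    have : 0 ≤ ∫ v : ℝ, |v| * ‖g v‖ := integral_nonneg fun v => by positivity
    have := Real.pi_pos
    positivity
  have hC2' : 0 ≤ C2 := integral_nonneg fun v => by positivity
  set C : ℝ := C1 + C2 + 1 with hC
  have hCpos : 0 < C := by positivity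
  have b1 : ∀ u, ‖P u‖ ≤ C * |u| := fun u => (P_le_one u).trans
    (mul_le_mul_of_nonneg_right (by linarith) (abs_nonneg u))
  have b2 : ∀ u, ‖P u‖ * |u| ≤ C := fun u => (P_le_inv u).trans (by linarith)
  refine ⟨6 * C, by positivity, fun j0 J hJ ξ => ?_⟩
  have hJ0 : (0 : ℝ) < J := by exact_mod_cast hJ
  have hn : ‖(1 / (J : ℂ))‖ = 1 / (J : ℝ) := by
    rw [norm_div, norm_one, Complex.norm_natCast]
  have key : ‖FtH j0 J ξ‖ ≤ (1 / (J : ℝ)) * ∑ j ∈ range J, ‖P (ξ / 2 ^ (j0 + j))‖ := by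
    rw [FtH_eq, norm_mul, hn]
    exact mul_le_mul_of_nonneg_left (norm_sum_le _ _) (by positivity)
  constructor
  · refine key.trans ?_
    have h1 : ∑ j ∈ range J, ‖P (ξ / 2 ^ (j0 + j))‖ ≤
        ∑ j ∈ range J, 6 * C * (phi (|ξ| / 2 ^ j0 / 2 ^ j) - phi (|ξ| / 2 ^ j0 / 2 ^ j / 2)) := by
      refine Finset.sum_le_sum fun j _ => ?_
      have h2 := P_phi hCpos.le b1 b2 (ξ / 2 ^ (j0 + j))
      have h3 : |ξ / 2 ^ (j0 + j)| = |ξ| / 2 ^ j0 / 2 ^ j := by
        rw [abs_div, abs_of_pos (show (0 : ℝ) < 2 ^ (j0 + j) by positivity), div_div, ← pow_add]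
      rw [h3] at h2
      exact h2
    have h4 := sum_phi (|ξ| / 2 ^ j0) (by positivity) J
    rw [← Finset.mul_sum] at h1
    have h5 : ∑ j ∈ range J, ‖P (ξ / 2 ^ (j0 + j))‖ ≤ 6 * C := by
      refine h1.trans ?_
      have : 6 * C * ∑ j ∈ range J, (phi (|ξ| / 2 ^ j0 / 2 ^ j) -
          phi (|ξ| / 2 ^ j0 / 2 ^ j / 2)) ≤ 6 * C * 1 :=
        mul_le_mul_of_nonneg_left h4 (by positivity)
      linarith
    calc (1 / (J : ℝ)) * ∑ j ∈ range J, ‖P (ξ / 2 ^ (j0 + j))‖ ≤ (1 / (J : ℝ)) * (6 * C) :=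
          mul_le_mul_of_nonneg_left h5 (by positivity)
      _ = 6 * C / J := by ring
  · have h1 : ‖FtH j0 J ξ‖ * |ξ| ≤
        (1 / (J : ℝ)) * ∑ j ∈ range J, C * 2 ^ (j0 + j) := by
      refine (mul_le_mul_of_nonneg_right key (abs_nonneg ξ)).trans ?_
      rw [mul_assoc, Finset.sum_mul]
      refine mul_le_mul_of_nonneg_left (Finset.sum_le_sum fun j _ => ?_) (by positivity)
      have h2 := b2 (ξ / 2 ^ (j0 + j))
      rw [abs_div, abs_of_pos (show (0 : ℝ) < 2 ^ (j0 + j) by positivity), ← mul_div_assoc,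
        div_le_iff₀ (by positivity)] at h2
      exact h2
    refine h1.trans ?_
    have h3 : ∑ j ∈ range J, C * (2 : ℝ) ^ (j0 + j) ≤ C * 2 ^ (j0 + J) := by
      rw [← Finset.mul_sum]
      refine mul_le_mul_of_nonneg_left ?_ hCpos.le
      have h4 : ∀ j, (2 : ℝ) ^ (j0 + j) = 2 ^ j0 * 2 ^ j := fun j => pow_add _ _ _
      simp only [h4]
      rw [← Finset.mul_sum]
      refine mul_le_mul_of_nonneg_left ?_ (by positivity)
      have h5 := geom_sum_eq (show (2 : ℝ) ≠ 1 by norm_num) J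
      rw [h5]
      have : (0 : ℝ) ≤ 2 ^ J := by positivity
      norm_num
    calc (1 / (J : ℝ)) * ∑ j ∈ range J, C * 2 ^ (j0 + j) ≤ (1 / (J : ℝ)) * (C * 2 ^ (j0 + J)) :=
          mul_le_mul_of_nonneg_left h3 (by positivity)
      _ = C * 2 ^ (j0 + J) / J := by ring
      _ ≤ 6 * C * 2 ^ (j0 + J) / J := by
          refine div_le_div_of_nonneg_right ?_ hJ0.le
          have : 0 ≤ C * 2 ^ (j0 + J) := by positivity
          nlinarith

end Pool.Agent.Helper96.SP
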