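import Pool.Agent.Helper96.SP.St

/-!
# Project SP: module L2

SP-6 (helper96). `A = 4^(j0+J)`; `∑ w5 r ∫ DD^2 = ∫ ‖FtH‖^2 ∑ w5 r ‖ph‖^2 ≤ C (log z)^2 / J`;
`∑ 2^ω(r)/r ≤ C (log z)^2` from `Euler` at `ξ = 0`; `|x| ≤ (λ x^2 + 1/λ)/2` in place of
Cauchy-Schwarz.
-/

set_option autoImplicit false

open Finset MeasureTheory
open scoped FourierTransform

namespace Pool.Agent.Helper96.SP

namespace L2Aux

theorem hh_ge {r : ℕ} (hr : 1 ≤ r) : 1 ≤ hh r := by
  have h1 : (0 : ℝ) < r.totient := by exact_mod_cast Nat.totient_pos.2 hr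
  have h2 : (r.totient : ℝ) ≤ r := by exact_mod_cast Nat.totient_le r
  unfold hh
  have h3 : 1 ≤ (r : ℝ) / r.totient := by
    rw [le_div_iff₀ h1, one_mul]
    exact h2
  nlinarith

theorem w5_nonneg (r : ℕ) : 0 ≤ w5 r := by
  unfold w5
  positivity

theorem ph_zero (z : ℝ) (r : ℕ) : ‖ph z r 0‖ = (r.divisors.card : ℝ) := by
  unfold ph
  simp

theorem two_pow_le {r : ℕ} (hr : 1 ≤ r) : (2 : ℝ) ^ r.primeFactors.card ≤ r.divisors.card := by
  have h : 2 ^ r.primeFactors.card ≤ r.divisors.card := by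
    rw [Nat.card_divisors (by omega)]
    calc 2 ^ r.primeFactors.card = ∏ _p ∈ r.primeFactors, 2 := by
          rw [Finset.prod_const]
      _ ≤ ∏ p ∈ r.primeFactors, (r.factorization p + 1) := by
          refine Finset.prod_le_prod' fun p hp => ?_
          have : 0 < r.factorization p :=
            (Nat.prime_of_mem_primeFactors hp).factorization_pos_of_dvd (by omega)
              (Nat.dvd_of_mem_primeFactors hp)
          omega
  exact_mod_cast h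

theorem w5_tau {r : ℕ} (hr : 1 ≤ r) (z : ℝ) :
    (2 : ℝ) ^ r.primeFactors.card / r ≤ w5 r * ‖ph z r 0‖ ^ 2 := by
  rw [ph_zero]
  unfold w5
  have h1 := hh_ge hr
  have h2 := two_pow_le hr
  have hr0 : (0 : ℝ) < r := by exact_mod_cast hr
  have hp : (0 : ℝ) < (2 : ℝ) ^ r.primeFactors.card := by positivity
  rw [div_mul_eq_mul_div, div_le_div_iff₀ hr0 (by positivity)]
  have h3 : (1 : ℝ) ≤ hh r ^ 2 := by nlinarith
  have h4 : ((2 : ℝ) ^ r.primeFactors.card) ^ 2 ≤ (r.divisors.card : ℝ) ^ 2 :=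
    pow_le_pow_left₀ hp.le h2 2
  have h5 : ((2 : ℝ) ^ r.primeFactors.card) ^ 2 ≤ hh r ^ 2 * (r.divisors.card : ℝ) ^ 2 := by
    nlinarith [sq_nonneg (r.divisors.card : ℝ)]
  nlinarith

/-- the integral of `1/(1+|ξ|)` -/
theorem int_log {A : ℝ} (hA : 0 < A) :
    ∫ ξ in (-A)..A, (1 + |ξ|)⁻¹ = 2 * Real.log (1 + A) := by
  have hc : Continuous fun ξ : ℝ => (1 + |ξ|)⁻¹ := by
    refine Continuous.inv₀ (continuous_const.add continuous_abs) fun x => ?_
    have := abs_nonneg x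
    linarith
  have h1 : ∫ ξ in (0 : ℝ)..A, (1 + |ξ|)⁻¹ = Real.log (1 + A) := by
    have h2 : ∫ ξ in (0 : ℝ)..A, (1 + |ξ|)⁻¹ = ∫ ξ in (0 : ℝ)..A, (1 + ξ)⁻¹ := by
      refine intervalIntegral.integral_congr fun x hx => ?_
      rw [Set.uIcc_of_le hA.le] at hx
      show (1 + |x|)⁻¹ = (1 + x)⁻¹
      rw [abs_of_nonneg hx.1]
    rw [h2, intervalIntegral.integral_comp_add_left (fun x : ℝ => x⁻¹) 1, add_zero,
      integral_inv_of_pos one_pos (by linarith), div_one]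
  have h2 : ∫ ξ in (-A)..0, (1 + |ξ|)⁻¹ = Real.log (1 + A) := by
    have h3 := intervalIntegral.integral_comp_neg (a := -A) (b := 0) (fun ξ : ℝ => (1 + |ξ|)⁻¹)
    simp only [abs_neg, neg_neg, neg_zero] at h3
    rw [h3, h1]
  rw [← intervalIntegral.integral_add_adjacent_intervals (hc.intervalIntegrable _ _)
    (hc.intervalIntegrable _ _) (b := 0), h1, h2]
  ring

/-- the total bound for the frequency integral -/
theorem freq {A K : ℝ} (hA : 1 ≤ A) (hK : 0 ≤ K) {f : ℝ → ℝ} (hf : Integrable f)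
    (h1 : ∀ ξ, |ξ| ≤ A → f ξ ≤ K / (1 + |ξ|)) (h2 : ∀ ξ, A < |ξ| → f ξ ≤ K * A / ξ ^ 2) :
    ∫ ξ, f ξ ≤ K * (2 * Real.log (1 + A) + 2 * Real.pi) := by
  have hA0 : 0 < A := by linarith
  set g1 : ℝ → ℝ := Set.indicator (Set.Ioc (-A) A) (fun ξ => (1 + |ξ|)⁻¹) with hg1
  set g2 : ℝ → ℝ := fun ξ => 2 / A * (1 + (ξ / A) ^ 2)⁻¹ with hg2
  have hc : Continuous fun ξ : ℝ => (1 + |ξ|)⁻¹ := by
    refine Continuous.inv₀ (continuous_const.add continuous_abs) fun x => ?_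
    have := abs_nonneg x
    linarith
  have i1 : Integrable g1 := by
    rw [hg1, integrable_indicator_iff measurableSet_Ioc]
    exact (hc.integrableOn_Icc).mono_set Set.Ioc_subset_Icc_self
  have i2 : Integrable g2 := by
    refine Integrable.const_mul ?_ _
    exact (integrable_inv_one_add_sq.comp_div hA0.ne')
  have e1 : ∫ ξ, g1 ξ = 2 * Real.log (1 + A) := by
    rw [hg1, integral_indicator measurableSet_Ioc, ← intervalIntegral.integral_of_le (by linarith),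
      int_log hA0]
  have e2 : ∫ ξ, g2 ξ = 2 * Real.pi := by
    rw [hg2, integral_const_mul, MeasureTheory.Measure.integral_comp_div
      (fun x : ℝ => (1 + x ^ 2)⁻¹) A, integral_univ_inv_one_add_sq, abs_of_pos hA0, smul_eq_mul]
    field_simp
  have key : ∀ ξ, f ξ ≤ K * (g1 ξ + g2 ξ) ∨ ξ = -A := by
    intro ξ
    have g2n : 0 ≤ g2 ξ := by
      simp only [hg2]
      positivity
    by_cases hx : |ξ| ≤ A
    · by_cases hx2 : ξ = -A
      · exact Or.inr hx2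
      · left
        have hm : ξ ∈ Set.Ioc (-A) A := by
          rw [abs_le] at hx
          exact ⟨lt_of_le_of_ne hx.1 (Ne.symm hx2), hx.2⟩
        have : g1 ξ = (1 + |ξ|)⁻¹ := by
          rw [hg1, Set.indicator_of_mem hm]
        rw [this]
        have h3 := h1 ξ hx
        rw [div_eq_mul_inv] at h3
        nlinarith
    · left
      push Not at hx
      have hm : ξ ∉ Set.Ioc (-A) A := by
        rintro ⟨h3, h4⟩
        exact absurd (abs_le.2 ⟨h3.le, h4⟩) (not_le.2 hx)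
      have : g1 ξ = 0 := by
        rw [hg1, Set.indicator_of_notMem hm]
      rw [this, zero_add]
      refine (h2 ξ hx).trans ?_
      have hx0 : 0 < |ξ| := hA0.trans hx
      have hsq : A ^ 2 ≤ ξ ^ 2 := by
        rw [← sq_abs ξ]
        nlinarith
      have hξ2 : 0 < ξ ^ 2 := by nlinarith
      rw [mul_div_assoc]
      refine mul_le_mul_of_nonneg_left ?_ hK
      simp only [hg2]
      rw [← div_eq_mul_inv, div_div, div_le_div_iff₀ hξ2 (by positivity)]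
      have : A * (A * (1 + (ξ / A) ^ 2)) = A ^ 2 + ξ ^ 2 := by
        field_simp
      rw [this]
      linarith
  have hae : ∀ᵐ ξ, f ξ ≤ K * (g1 ξ + g2 ξ) := by
    have h3 : ∀ᵐ ξ : ℝ, ξ ≠ -A := by
      rw [ae_iff]
      simp
    filter_upwards [h3] with ξ hξ
    rcases key ξ with h | h
    · exact h
    · exact absurd h hξ
  calc ∫ ξ, f ξ ≤ ∫ ξ, K * (g1 ξ + g2 ξ) :=
        integral_mono_ae hf ((i1.add i2).const_mul K) hae
    _ = K * (2 * Real.log (1 + A) + 2 * Real.pi) := by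
        rw [integral_const_mul, integral_add i1 i2, e1, e2]

/-- the interval integral of `|g|` against the integral of `g^2` -/
theorem int_abs_le {g : ℝ → ℝ} (hc : Continuous g) (hi : Integrable fun b => g b ^ 2) {μ δ β : ℝ}
    (hμ : 0 < μ) (hδ : 0 ≤ δ) :
    ∫ b in β..(β + δ), |g b| ≤ μ / 2 * (∫ b, g b ^ 2) + δ / (2 * μ) := by
  have hle : β ≤ β + δ := by linarith
  have h1 : ∫ b in β..(β + δ), |g b| ≤ ∫ b in β..(β + δ), (μ / 2 * g b ^ 2 + 1 / (2 * μ)) := by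
    refine intervalIntegral.integral_mono_on hle (hc.abs.intervalIntegrable _ _)
      ((((hc.pow 2).const_mul _).add continuous_const).intervalIntegrable _ _) fun b _ => ?_
    have h2 : 0 ≤ (μ * |g b| - 1) ^ 2 := sq_nonneg _
    have h3 : |g b| ^ 2 = g b ^ 2 := sq_abs _
    have h4 : μ / 2 * g b ^ 2 + 1 / (2 * μ) - |g b| = (μ * |g b| - 1) ^ 2 / (2 * μ) := by
      rw [← h3]
      field_simp
      ring
    have h5 : 0 ≤ (μ * |g b| - 1) ^ 2 / (2 * μ) := by positivity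
    linarith
  refine h1.trans ?_
  have h10 : ∫ b in β..(β + δ), (μ / 2 * g b ^ 2 + 1 / (2 * μ)) =
      (∫ b in β..(β + δ), μ / 2 * g b ^ 2) + ∫ b in β..(β + δ), 1 / (2 * μ) :=
    intervalIntegral.integral_add (((hc.pow 2).const_mul (μ / 2)).intervalIntegrable _ _)
      (continuous_const.intervalIntegrable _ _)
  rw [h10, intervalIntegral.integral_const_mul, intervalIntegral.integral_const]
  have h6 : ∫ b in β..(β + δ), g b ^ 2 ≤ ∫ b, g b ^ 2 := by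
    rw [intervalIntegral.integral_of_le hle]
    exact setIntegral_le_integral hi (Filter.Eventually.of_forall fun b => sq_nonneg _)
  have h7 : (β + δ - β) • (1 / (2 * μ)) = δ / (2 * μ) := by
    rw [smul_eq_mul]
    ring
  rw [h7]
  have h8 : 0 ≤ μ / 2 := by positivity
  nlinarith

theorem log_A {j0 J : ℕ} (hJ : 1 ≤ J) (hj : j0 ≤ J) :
    2 * Real.log (1 + (4 : ℝ) ^ (j0 + J)) + 2 * Real.pi ≤ 14 * J := by
  have hJ1 : (1 : ℝ) ≤ J := by exact_mod_cast hJ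
  have h1 : 1 + (4 : ℝ) ^ (j0 + J) ≤ 2 ^ (4 * J + 1) := by
    have h2 : (4 : ℝ) ^ (j0 + J) ≤ 4 ^ (2 * J) := pow_le_pow_right₀ (by norm_num) (by omega)
    have h3 : (1 : ℝ) ≤ 4 ^ (2 * J) := one_le_pow₀ (by norm_num)
    have h4 : (2 : ℝ) ^ (4 * J + 1) = 2 * 4 ^ (2 * J) := by
      rw [pow_succ, show (4 : ℕ) * J = 2 * (2 * J) by ring, pow_mul]
      norm_num
      ring
    rw [h4]
    linarith
  have h5 : Real.log (1 + (4 : ℝ) ^ (j0 + J)) ≤ (4 * J + 1) * Real.log 2 := by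
    have h6 := Real.log_le_log (by positivity) h1
    rw [Real.log_pow] at h6
    push_cast at h6
    exact h6
  have h7 : Real.log 2 < 0.6931471808 := Real.log_two_lt_d9
  have h8 : Real.pi < 3.15 := Real.pi_lt_d2
  have h9 : (4 * (J : ℝ) + 1) * Real.log 2 ≤ (4 * J + 1) * 0.6931471808 :=
    mul_le_mul_of_nonneg_left h7.le (by positivity)
  nlinarith

end L2Aux

theorem l2Main (h1 : FTbound) (h2 : Planch) (h3 : Euler) : L2Main := by
  obtain ⟨C1, hC1, hF⟩ := h1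
  obtain ⟨C3, hC3, hE1, hE2⟩ := h3
  refine ⟨7 * C1 ^ 2 * C3 + C3, by positivity, ?_⟩
  intro j0 J hJ hj
  have hJ1 : (1 : ℝ) ≤ J := by exact_mod_cast hJ
  have hJ0 : (0 : ℝ) < J := by linarith
  set A : ℝ := (4 : ℝ) ^ (j0 + J) with hA
  have hA1 : 1 ≤ A := one_le_pow₀ (by norm_num)
  have hA2 : A = ((2 : ℝ) ^ (j0 + J)) ^ 2 := by
    rw [hA, ← pow_mul, mul_comm (j0 + J) 2, pow_mul]
    norm_num
  obtain ⟨z0, hz0, hE3⟩ := hE2 A (by linarith)
  refine ⟨z0, hz0, ?_⟩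
  intro z hz δ hδ β
  have hz3 : 3 ≤ z := hz0.trans hz
  have hL : 0 < Real.log z := Real.log_pos (by linarith)
  set L := Real.log z with hLd
  set n := ⌊z⌋₊ with hn
  -- the weighted sum of the square integrals
  have hX : ∑ r ∈ Icc 1 n, w5 r * ∫ b, DD j0 J z r b ^ 2 ≤ 14 * (C1 ^ 2 * C3 * L ^ 2 / J) := by
    have e1 : ∑ r ∈ Icc 1 n, w5 r * ∫ b, DD j0 J z r b ^ 2 =
        ∫ ξ, ∑ r ∈ Icc 1 n, w5 r * (‖FtH j0 J ξ‖ ^ 2 * ‖ph z r ξ‖ ^ 2) := by
      rw [integral_finsetSum _ fun r _ => ((h2 j0 J z r).2.2.1).const_mul _]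
      refine Finset.sum_congr rfl fun r _ => ?_
      rw [integral_const_mul, (h2 j0 J z r).2.2.2]
    rw [e1]
    have hi : Integrable fun ξ => ∑ r ∈ Icc 1 n, w5 r * (‖FtH j0 J ξ‖ ^ 2 * ‖ph z r ξ‖ ^ 2) :=
      integrable_finsetSum _ fun r _ => ((h2 j0 J z r).2.2.1).const_mul _
    have e2 : ∀ ξ, ∑ r ∈ Icc 1 n, w5 r * (‖FtH j0 J ξ‖ ^ 2 * ‖ph z r ξ‖ ^ 2) =
        ‖FtH j0 J ξ‖ ^ 2 * ∑ r ∈ Icc 1 n, w5 r * ‖ph z r ξ‖ ^ 2 := by
      intro ξ
      rw [Finset.mul_sum]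
      exact Finset.sum_congr rfl fun r _ => by ring
    have hS : ∀ ξ, 0 ≤ ∑ r ∈ Icc 1 n, w5 r * ‖ph z r ξ‖ ^ 2 := fun ξ =>
      Finset.sum_nonneg fun r _ => mul_nonneg (L2Aux.w5_nonneg r) (sq_nonneg _)
    have h4 := L2Aux.freq (K := (C1 / J) ^ 2 * (C3 * L ^ 2)) hA1 (by positivity) hi ?_ ?_
    · refine h4.trans ?_
      have h5 := L2Aux.log_A hJ hj
      have h6 : (C1 / J) ^ 2 * (C3 * L ^ 2) * (14 * J) = 14 * (C1 ^ 2 * C3 * L ^ 2 / J) := by
        field_simp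
      rw [← h6]
      exact mul_le_mul_of_nonneg_left h5 (by positivity)
    · intro ξ hξ
      rw [e2]
      have h5 := (hF j0 J hJ ξ).1
      have h6 := hE3 z hz ξ hξ
      have h7 : ‖FtH j0 J ξ‖ ^ 2 ≤ (C1 / J) ^ 2 := pow_le_pow_left₀ (norm_nonneg _) h5 2
      calc ‖FtH j0 J ξ‖ ^ 2 * ∑ r ∈ Icc 1 n, w5 r * ‖ph z r ξ‖ ^ 2 ≤
            (C1 / J) ^ 2 * (C3 * L ^ 2 / (1 + |ξ|)) :=
            mul_le_mul h7 h6 (hS ξ) (by positivity)
        _ = (C1 / J) ^ 2 * (C3 * L ^ 2) / (1 + |ξ|) := by ring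
    · intro ξ hξ
      rw [e2]
      have h5 := (hF j0 J hJ ξ).2
      have h6 := hE1 z hz3 ξ
      have hx0 : 0 < |ξ| := by linarith
      have hξ2 : 0 < ξ ^ 2 := by
        rw [← sq_abs]
        positivity
      have h7 : ‖FtH j0 J ξ‖ ^ 2 * ξ ^ 2 ≤ (C1 / J) ^ 2 * A := by
        have h8 : (‖FtH j0 J ξ‖ * |ξ|) ^ 2 ≤ (C1 * 2 ^ (j0 + J) / J) ^ 2 :=
          pow_le_pow_left₀ (by positivity) h5 2
        rw [mul_pow, sq_abs] at h8
        refine h8.trans (le_of_eq ?_)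
        rw [hA2]
        ring
      have h9 : ‖FtH j0 J ξ‖ ^ 2 ≤ (C1 / J) ^ 2 * A / ξ ^ 2 := by
        rw [le_div_iff₀ hξ2]
        exact h7
      calc ‖FtH j0 J ξ‖ ^ 2 * ∑ r ∈ Icc 1 n, w5 r * ‖ph z r ξ‖ ^ 2 ≤
            ((C1 / J) ^ 2 * A / ξ ^ 2) * (C3 * L ^ 2) :=
            mul_le_mul h9 h6 (hS ξ) (by positivity)
        _ = (C1 / J) ^ 2 * (C3 * L ^ 2) * A / ξ ^ 2 := by ring
  -- the sum of the weights
  have hY : ∑ r ∈ Icc 1 n, (2 : ℝ) ^ r.primeFactors.card / r ≤ C3 * L ^ 2 := by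
    refine (Finset.sum_le_sum fun r hr => ?_).trans (hE1 z hz3 0)
    exact L2Aux.w5_tau (Finset.mem_Icc.1 hr).1 z
  rcases hδ.eq_or_lt with hδ0 | hδ0
  · subst hδ0
    simp only [add_zero, intervalIntegral.integral_same, mul_zero, Finset.sum_const_zero]
    positivity
  set lam : ℝ := Real.sqrt (δ * J) with hlam
  have hlam0 : 0 < lam := Real.sqrt_pos.2 (by positivity)
  have hlam2 : lam ^ 2 = δ * J := Real.sq_sqrt (by positivity)
  have hmain : ∀ r ∈ Icc 1 n, (hh r / r) * ∫ b in (β r)..(β r + δ), |DD j0 J z r b| ≤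
      lam / 2 * (w5 r * ∫ b, DD j0 J z r b ^ 2) +
        δ / (2 * lam) * ((2 : ℝ) ^ r.primeFactors.card / r) := by
    intro r hr
    have hr1 := (Finset.mem_Icc.1 hr).1
    have hr0 : (0 : ℝ) < r := by exact_mod_cast hr1
    have hh1 : 0 < hh r := lt_of_lt_of_le one_pos (L2Aux.hh_ge hr1)
    have hp : (0 : ℝ) < (2 : ℝ) ^ r.primeFactors.card := by positivity
    obtain ⟨hc, hi, -, -⟩ := h2 j0 J z r
    have h4 := L2Aux.int_abs_le hc hi (μ := lam * hh r / (2 : ℝ) ^ r.primeFactors.card)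
      (β := β r) (by positivity) hδ
    refine (mul_le_mul_of_nonneg_left h4 (by positivity)).trans (le_of_eq ?_)
    unfold w5
    field_simp
  refine (Finset.sum_le_sum hmain).trans ?_
  rw [Finset.sum_add_distrib, ← Finset.mul_sum, ← Finset.mul_sum]
  have hq : Real.sqrt (δ / J) = lam / J := by
    rw [hlam, Real.sqrt_eq_iff_mul_self_eq (by positivity) (by positivity)]
    rw [div_mul_div_comm, Real.mul_self_sqrt (by positivity)]
    field_simp
  have hq2 : Real.sqrt (δ / J) = δ / lam := by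
    rw [hq, div_eq_div_iff hJ0.ne' hlam0.ne']
    nlinarith
  have h5 : lam / 2 * (14 * (C1 ^ 2 * C3 * L ^ 2 / J)) =
      7 * C1 ^ 2 * C3 * L ^ 2 * Real.sqrt (δ / J) := by
    rw [hq]
    ring
  have h6 : δ / (2 * lam) * (C3 * L ^ 2) = C3 / 2 * L ^ 2 * Real.sqrt (δ / J) := by
    rw [hq2]
    field_simp
  have h7 : lam / 2 * ∑ r ∈ Icc 1 n, w5 r * ∫ b, DD j0 J z r b ^ 2 ≤
      lam / 2 * (14 * (C1 ^ 2 * C3 * L ^ 2 / J)) :=
    mul_le_mul_of_nonneg_left hX (by positivity)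
  have h8 : δ / (2 * lam) * ∑ r ∈ Icc 1 n, (2 : ℝ) ^ r.primeFactors.card / r ≤
      δ / (2 * lam) * (C3 * L ^ 2) :=
    mul_le_mul_of_nonneg_left hY (by positivity)
  rw [h5] at h7
  rw [h6] at h8
  have h9 : 0 ≤ C3 / 2 * L ^ 2 * Real.sqrt (δ / J) := by positivity
  nlinarith

end Pool.Agent.Helper96.SP
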