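import Pool.Agent.Helper96.SP.St
import Pool.Agent.Helper96.CPAP.Tuple

/-!
# Project SP: module Pair

SP-7. Upper bound sieve for the pairs of primes `q`, `q r + 1`, `q ∈ (Y, 2Y]`, uniform in `r`.
-/

set_option autoImplicit false

open Finset MeasureTheory
open scoped FourierTransform

namespace Pool.Agent.Helper96.SP

namespace PairAux

open Pool.Agent.Helper44 Pool.Agent.Helper96.CPAP

/-- The residue classes sieved out. -/
def oc (r l n : ℕ) : Prop := l ∣ n ∨ l ∣ n * r + 1

instance (r l : ℕ) : DecidablePred (oc r l) := fun n => by unfold oc; infer_instance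

/-- Their number. -/
def nu (r l : ℕ) : ℕ := if l ∣ r then 1 else 2

theorem nu_le (r l : ℕ) : nu r l ≤ 2 := by
  unfold nu
  split_ifs <;> norm_num

theorem oc_mod {r q Q : ℕ} (hqQ : q ∣ Q) (n : ℕ) : oc r q (n % Q) ↔ oc r q n := by
  unfold oc
  have h1 : n % Q ≡ n [MOD q] := (Nat.mod_modEq n Q).of_dvd hqQ
  have h2 : n % Q * r + 1 ≡ n * r + 1 [MOD q] := Nat.ModEq.add_right 1 (h1.mul_right r)
  exact or_congr (Nat.ModEq.dvd_iff h1 dvd_rfl) (Nat.ModEq.dvd_iff h2 dvd_rfl)

theorem card_oc {r q : ℕ} (hq : q.Prime) : ((range q).filter (oc r q)).card = nu r q := by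
  classical
  have : Fact q.Prime := ⟨hq⟩
  by_cases hr : q ∣ r
  · have h1 : (range q).filter (oc r q) = {0} := by
      ext n
      rw [Finset.mem_filter, Finset.mem_range, Finset.mem_singleton]
      constructor
      · rintro ⟨hn, h | h⟩
        · exact Nat.eq_zero_of_dvd_of_lt h hn
        · exfalso
          have h2 : q ∣ 1 := (Nat.dvd_add_right (hr.mul_left n)).mp h
          exact hq.one_lt.ne' (Nat.dvd_one.mp h2)
      · rintro rfl
        exact ⟨hq.pos, Or.inl (dvd_zero q)⟩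
    rw [h1, Finset.card_singleton]
    unfold nu
    rw [if_pos hr]
  · have hr' : (r : ZMod q) ≠ 0 := fun h => hr ((ZMod.natCast_eq_zero_iff r q).mp h)
    have key : ∀ n : ℕ, q ∣ n * r + 1 ↔ (n : ZMod q) = -(r : ZMod q)⁻¹ := by
      intro n
      rw [← ZMod.natCast_eq_zero_iff]
      push_cast
      constructor
      · intro h
        have h2 : (n : ZMod q) * r = -1 := eq_neg_of_add_eq_zero_left h
        calc (n : ZMod q) = n * r * (r : ZMod q)⁻¹ := by rw [mul_assoc, mul_inv_cancel₀ hr', mul_one]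
          _ = _ := by rw [h2]; ring
      · intro h
        rw [h, neg_mul, inv_mul_cancel₀ hr']
        ring
    have h1 : (range q).filter (oc r q) = {0, (-(r : ZMod q)⁻¹).val} := by
      ext n
      rw [Finset.mem_filter, Finset.mem_range, Finset.mem_insert, Finset.mem_singleton]
      constructor
      · rintro ⟨hn, h | h⟩
        · exact Or.inl (Nat.eq_zero_of_dvd_of_lt h hn)
        · right
          rw [key] at h
          rw [← h, ZMod.val_natCast, Nat.mod_eq_of_lt hn]
      · rintro (rfl | rfl)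
        · exact ⟨hq.pos, Or.inl (dvd_zero q)⟩
        · refine ⟨ZMod.val_lt _, Or.inr ?_⟩
          rw [key, ZMod.natCast_val, ZMod.cast_id]
    rw [h1, Finset.card_pair]
    · unfold nu
      rw [if_neg hr]
    · intro h
      have h2 : (-(r : ZMod q)⁻¹) = 0 := by
        rw [← ZMod.val_eq_zero]; exact h.symm
      rw [neg_eq_zero] at h2
      exact inv_ne_zero hr' h2

theorem card_oc_prod (r : ℕ) (I : Finset ℕ) (hI : ∀ q ∈ I, q.Prime) :
    ((range (∏ q ∈ I, q)).filter (fun n => ∀ q ∈ I, oc r q n)).card = ∏ q ∈ I, nu r q := by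
  classical
  induction I using Finset.induction_on with
  | empty => simp
  | insert q I hqI ih =>
    have hq := hI q (Finset.mem_insert_self _ _)
    have hI' : ∀ q ∈ I, q.Prime := fun q' hq' => hI q' (Finset.mem_insert_of_mem hq')
    have hco : Nat.Coprime q (∏ q ∈ I, q) := by
      apply Nat.Coprime.prod_right
      intro q' hq'
      exact (Nat.coprime_primes hq (hI' q' hq')).mpr (fun h => hqI (h ▸ hq'))
    have hpos : 0 < ∏ q ∈ I, q := Finset.prod_pos fun q' hq' => (hI' q' hq').pos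
    rw [Finset.prod_insert hqI, Finset.prod_insert hqI, ← ih hI', ← card_oc (r := r) hq]
    rw [← card_crt hco hq.pos hpos]
    · congr 1
      apply Finset.filter_congr
      intro n _
      rw [Finset.forall_mem_insert]
    · intro n
      exact oc_mod dvd_rfl n
    · intro n
      apply forall₂_congr
      intro q' hq'
      exact oc_mod (Finset.dvd_prod_of_mem _ hq') n

theorem count_bound (r : ℕ) (I : Finset ℕ) (hI : ∀ q ∈ I, q.Prime) (Y : ℕ) :
    |evCount (Ioc Y (2 * Y)) (fun n => ∀ q ∈ I, oc r q n) -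
      (Y : ℝ) * ∏ q ∈ I, ((nu r q : ℝ) / q)| ≤ 2 * (((2 : ℕ) : ℝ) + 1) ^ I.card := by
  classical
  have hpos : 0 < ∏ q ∈ I, q := Finset.prod_pos fun q' hq' => (hI q' hq').pos
  have hper : ∀ n, (∀ q ∈ I, oc r q (n + ∏ q ∈ I, q)) ↔ (∀ q ∈ I, oc r q n) := by
    intro n
    apply forall₂_congr
    intro q' hq'
    have hdv : q' ∣ ∏ q ∈ I, q := Finset.dvd_prod_of_mem _ hq'
    rw [← oc_mod hdv (n + ∏ q ∈ I, q), ← oc_mod hdv n, Nat.add_mod_right]
  have h1 := count_periodic_bound (p := fun n => ∀ q ∈ I, oc r q n) hpos hper (Y + 1)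
  have h2 := count_periodic_bound (p := fun n => ∀ q ∈ I, oc r q n) hpos hper (2 * Y + 1)
  have h3 : ((Ioc Y (2 * Y)).filter (fun n => ∀ q ∈ I, oc r q n)).card +
      Nat.count (fun n => ∀ q ∈ I, oc r q n) (Y + 1) =
      Nat.count (fun n => ∀ q ∈ I, oc r q n) (2 * Y + 1) := by
    rw [Nat.count_eq_card_filter_range, Nat.count_eq_card_filter_range,
      ← Finset.card_union_of_disjoint, ← Finset.filter_union]
    · congr 2
      ext n
      rw [Finset.mem_union, Finset.mem_Ioc, Finset.mem_range, Finset.mem_range]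
      omega
    · apply Finset.disjoint_filter_filter
      rw [Finset.disjoint_left]
      intro n hn hn'
      rw [Finset.mem_Ioc] at hn
      rw [Finset.mem_range] at hn'
      omega
  have h4 : evCount (Ioc Y (2 * Y)) (fun n => ∀ q ∈ I, oc r q n) =
      (Nat.count (fun n => ∀ q ∈ I, oc r q n) (2 * Y + 1) : ℝ) -
      Nat.count (fun n => ∀ q ∈ I, oc r q n) (Y + 1) := by
    rw [evCount_eq, ← h3]
    push_cast
    ring
  rw [Nat.count_eq_card_filter_range _ (∏ q ∈ I, q), card_oc_prod r I hI] at h1 h2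
  rw [h4, Finset.prod_div_distrib]
  push_cast at h1 h2 ⊢
  have h5 : ∏ q ∈ I, (nu r q : ℝ) ≤ (2 + 1) ^ I.card := by
    rw [← Finset.prod_const]
    apply Finset.prod_le_prod
    · intro q _; positivity
    · intro q _
      have : (nu r q : ℝ) ≤ 2 := by exact_mod_cast nu_le r q
      linarith
  rw [abs_le] at h1 h2 ⊢
  set A : ℝ := (∏ i ∈ I, (nu r i : ℝ)) / ∏ i ∈ I, (i : ℝ) with hA
  obtain ⟨h11, h12⟩ := h1
  obtain ⟨h21, h22⟩ := h2
  have e1 : ((Y : ℝ) + 1) * A = Y * A + A := by ring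
  have e2 : (2 * (Y : ℝ) + 1) * A = 2 * (Y * A) + A := by ring
  rw [e1] at h11 h12
  rw [e2] at h21 h22
  constructor <;> linarith

theorem one_le_hh {r : ℕ} (hr : 1 ≤ r) : 1 ≤ hh r := by
  unfold hh
  apply one_le_pow₀
  have h1 : 0 < r.totient := Nat.totient_pos.mpr (by omega)
  rw [one_le_div (by exact_mod_cast h1)]
  exact_mod_cast Nat.totient_le r

theorem hh_eq {r : ℕ} (hr : 1 ≤ r) : hh r = ∏ q ∈ r.primeFactors, ((1 - 1 / (q : ℝ))⁻¹) ^ 2 := by
  unfold hh
  have h1 : (r.totient : ℝ) = r * ∏ q ∈ r.primeFactors, (1 - 1 / (q : ℝ)) := by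
    have h := Nat.totient_eq_mul_prod_factors r
    have h' : ((r.totient : ℚ) : ℝ) = ((r * ∏ p ∈ r.primeFactors, (1 - (p : ℚ)⁻¹) : ℚ) : ℝ) := by
      rw [h]
    push_cast at h'
    rw [h']
    simp only [one_div]
  have hr0 : (r : ℝ) ≠ 0 := by
    have : (1 : ℝ) ≤ r := by exact_mod_cast hr
    linarith
  rw [h1, Finset.prod_pow, Finset.prod_inv_distrib, div_mul_eq_div_div, div_self hr0, one_div]

/-- The sieve product. -/
theorem prod_le : ∃ C : ℝ, 0 < C ∧ ∀ r : ℕ, 1 ≤ r → ∀ w : ℝ, 2 ≤ w →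
    ∏ q ∈ pU (fun q => q.Prime ∧ 2 * 2 ≤ q) w, (1 - (nu r q : ℝ) / q) ≤
      C / (Real.log w) ^ 2 * hh r := by
  classical
  obtain ⟨C, hC, hM⟩ := sum_primesUpTo_bounds
  refine ⟨Real.exp (2 * (C + 4)), by positivity, ?_⟩
  intro r hr w hw
  set P : ℕ → Prop := fun q => q.Prime ∧ 2 * 2 ≤ q with hP
  have hP' : ∀ q, P q → q.Prime := fun q h => h.1
  have hw0 : 0 ≤ w := by linarith
  have hlw : 0 < Real.log w := Real.log_pos (by linarith)
  have h1 : ∏ q ∈ pU P w, (1 - (nu r q : ℝ) / q) ≤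
      ∏ q ∈ pU P w, (Real.exp (-(2 * (1 / (q : ℝ)))) *
        (if q ∣ r then ((1 - 1 / (q : ℝ))⁻¹) ^ 2 else 1)) := by
    apply Finset.prod_le_prod
    · intro q hq
      rw [mem_pU hP' hw0] at hq
      have hq0 : (0 : ℝ) < q := by exact_mod_cast hq.1.1.pos
      have h2 : (nu r q : ℝ) ≤ q := by
        have h3 := nu_le r q
        have h4 : nu r q ≤ q := by
          have := hq.1.2
          omega
        exact_mod_cast h4
      have := (div_le_one hq0).mpr h2
      linarith
    · intro q hq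
      rw [mem_pU hP' hw0] at hq
      have hq4 : (4 : ℝ) ≤ q := by exact_mod_cast hq.1.2
      have hq0 : (0 : ℝ) < q := by linarith
      have hx : 1 / (q : ℝ) ≤ 1 / 4 := one_div_le_one_div_of_le (by norm_num) hq4
      have hx0 : 0 < 1 / (q : ℝ) := by positivity
      by_cases hd : q ∣ r
      · rw [if_pos hd]
        unfold nu
        rw [if_pos hd]
        have h3 := Real.add_one_le_exp (-(1 / (q : ℝ)))
        have h4 : (1 - 1 / (q : ℝ)) ^ 2 ≤ Real.exp (-(2 * (1 / (q : ℝ)))) := by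
          have h5 : Real.exp (-(2 * (1 / (q : ℝ)))) = Real.exp (-(1 / (q : ℝ))) ^ 2 := by
            rw [← Real.exp_nat_mul]; congr 1; push_cast; ring
          rw [h5]
          apply pow_le_pow_left₀ (by linarith)
          linarith
        have h6 : 0 < 1 - 1 / (q : ℝ) := by linarith
        have h7 : (1 : ℝ) ≤ Real.exp (-(2 * (1 / (q : ℝ)))) * ((1 - 1 / (q : ℝ))⁻¹) ^ 2 := by
          rw [inv_pow, ← div_eq_mul_inv, one_le_div (by positivity)]
          exact h4
        push_cast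
        linarith
      · rw [if_neg hd, mul_one]
        unfold nu
        rw [if_neg hd]
        have h2 := Real.add_one_le_exp (-(2 * (1 / (q : ℝ))))
        have h3 : ((2 : ℕ) : ℝ) / q = 2 * (1 / (q : ℝ)) := by push_cast; ring
        rw [h3]
        linarith
  refine h1.trans ?_
  rw [Finset.prod_mul_distrib, ← Real.exp_sum, Finset.sum_neg_distrib, ← Finset.mul_sum]
  have h2 : Real.log (Real.log w) - C - 4 ≤ ∑ q ∈ pU P w, (1 / (q : ℝ)) := by
    have h3 := (abs_le.mp (hM w hw)).1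
    have h4 : ∑ q ∈ primesUpTo w, (1 / (q : ℝ)) ≤
        ∑ q ∈ pU P w, (1 / (q : ℝ)) + ∑ q ∈ range 4, (1 : ℝ) := by
      have h5 : primesUpTo w ⊆ pU P w ∪ (primesUpTo w).filter (fun q => q < 4) := by
        intro q hq
        rw [Finset.mem_union, mem_pU hP' hw0, Finset.mem_filter]
        have h6 := (mem_primesUpTo hw0).mp hq
        by_cases h7 : q < 4
        · right; exact ⟨hq, h7⟩
        · left; exact ⟨⟨h6.1, by omega⟩, h6.2⟩
      calc ∑ q ∈ primesUpTo w, (1 / (q : ℝ)) ≤
          ∑ q ∈ pU P w ∪ (primesUpTo w).filter (fun q => q < 4), (1 / (q : ℝ)) :=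
            Finset.sum_le_sum_of_subset_of_nonneg h5 (fun q _ _ => by positivity)
        _ ≤ ∑ q ∈ pU P w, (1 / (q : ℝ)) +
            ∑ q ∈ (primesUpTo w).filter (fun q => q < 4), (1 / (q : ℝ)) := by
              rw [← Finset.sum_union_inter]
              have : 0 ≤ ∑ q ∈ pU P w ∩ (primesUpTo w).filter (fun q => q < 4),
                  (1 / (q : ℝ)) := Finset.sum_nonneg fun q _ => by positivity
              linarith
        _ ≤ _ := by
              gcongr
              calc ∑ q ∈ (primesUpTo w).filter (fun q => q < 4), (1 / (q : ℝ))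
                  ≤ ∑ q ∈ (primesUpTo w).filter (fun q => q < 4), (1 : ℝ) := by
                    apply Finset.sum_le_sum
                    intro q hq
                    rw [Finset.mem_filter, mem_primesUpTo hw0] at hq
                    have : (1 : ℝ) ≤ q := by exact_mod_cast hq.1.1.one_le
                    rw [div_le_one (by linarith)]
                    exact this
                _ ≤ ∑ q ∈ range 4, (1 : ℝ) := by
                    apply Finset.sum_le_sum_of_subset_of_nonneg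
                    · intro q hq
                      rw [Finset.mem_filter] at hq
                      exact Finset.mem_range.mpr hq.2
                    · intro q _ _; norm_num
    rw [Finset.sum_const, Finset.card_range, nsmul_eq_mul, mul_one] at h4
    push_cast at h4
    linarith
  have h3 : Real.exp (-(2 * ∑ q ∈ pU P w, (1 / (q : ℝ)))) ≤
      Real.exp (2 * (C + 4)) / (Real.log w) ^ 2 := by
    have h5 : (Real.log w) ^ 2 = Real.exp (2 * Real.log (Real.log w)) := by
      have h6 := Real.exp_nat_mul (Real.log (Real.log w)) 2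
      rw [Real.exp_log hlw] at h6
      rw [← h6]
      norm_num
    rw [h5, ← Real.exp_sub]
    apply Real.exp_le_exp.mpr
    linarith
  have h4 : ∏ q ∈ pU P w, (if q ∣ r then ((1 - 1 / (q : ℝ))⁻¹) ^ 2 else 1) ≤ hh r := by
    rw [← Finset.prod_filter, hh_eq hr]
    apply prod_le_of_subset
    · intro q hq
      rw [Finset.mem_filter, mem_pU hP' hw0] at hq
      rw [Nat.mem_primeFactors]
      exact ⟨hq.1.1.1, hq.2, by omega⟩
    · intro q _; positivity
    · intro q hq _
      have hq2 : (2 : ℝ) ≤ q := by exact_mod_cast (Nat.prime_of_mem_primeFactors hq).two_le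
      have hx : 1 / (q : ℝ) ≤ 1 / 2 := one_div_le_one_div_of_le (by norm_num) hq2
      have hx0 : 0 < 1 / (q : ℝ) := by
        have : (0 : ℝ) < q := by linarith
        positivity
      apply one_le_pow₀
      rw [one_le_inv₀ (by linarith)]
      linarith
  have h9 : 0 ≤ ∏ q ∈ pU P w, (if q ∣ r then ((1 - 1 / (q : ℝ))⁻¹) ^ 2 else 1) := by
    apply Finset.prod_nonneg
    intro q _
    split_ifs <;> positivity
  calc _ ≤ (Real.exp (2 * (C + 4)) / (Real.log w) ^ 2) * hh r := by
        apply mul_le_mul h3 h4 h9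
        positivity
    _ = _ := by ring

end PairAux

open PairAux Pool.Agent.Helper44 Pool.Agent.Helper96.CPAP in
theorem pairS : PairS := by
  classical
  obtain ⟨K, c, hK, hc, hs⟩ := sieveK 2
  obtain ⟨C1, hC1, hp⟩ := prod_le
  obtain ⟨C3, hC3, hL⟩ := log_pow_le 2
  refine ⟨(2 * K) ^ 2 + 2 * C1 * (2 * K) ^ 2 + 2 * C3, by positivity, ?_⟩
  intro r Y hr hY
  have hN2 : (2 : ℝ) ≤ Y := by exact_mod_cast hY
  have hN0 : (0 : ℝ) < Y := by linarith
  have hN1 : (1 : ℝ) ≤ Y := by linarith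
  set L := Real.log Y with hLdef
  have hL0 : 0 < L := Real.log_pos (by linarith)
  have hLk : 0 < L ^ 2 := pow_pos hL0 2
  have hsing := one_le_hh hr
  have hNL : 0 ≤ (Y : ℝ) / L ^ 2 := by positivity
  have hform : ∀ C : ℝ, C * hh r * Y / L ^ 2 = C * (Y / L ^ 2) * hh r := by
    intro C; ring
  rw [hform]
  rcases lt_or_ge ((Y : ℝ) ^ (1 / (2 * K))) 2 with hsmall | hbig
  · have h1 : L < 2 * K := by
      have h2 : Real.log ((Y : ℝ) ^ (1 / (2 * K))) < Real.log 2 :=
        Real.log_lt_log (by positivity) hsmall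
      rw [Real.log_rpow hN0] at h2
      have h3 : Real.log 2 < 1 := by
        have := Real.log_two_lt_d9; linarith
      rw [one_div_mul_eq_div, div_lt_iff₀ (by positivity)] at h2
      nlinarith
    have h4 : (((Ioc Y (2 * Y)).filter (fun q => q.Prime ∧ (q * r + 1).Prime)).card : ℝ) ≤ Y := by
      have := Finset.card_filter_le (Ioc Y (2 * Y)) (fun q => q.Prime ∧ (q * r + 1).Prime)
      rw [Nat.card_Ioc] at this
      have h5 : ((Ioc Y (2 * Y)).filter (fun q => q.Prime ∧ (q * r + 1).Prime)).card ≤ Y := by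
        omega
      exact_mod_cast h5
    have h5 : (Y : ℝ) ≤ (2 * K) ^ 2 * (Y / L ^ 2) := by
      rw [← mul_div_assoc, le_div_iff₀ hLk, mul_comm]
      exact mul_le_mul_of_nonneg_right (pow_le_pow_left₀ hL0.le h1.le 2) hN0.le
    calc _ ≤ (Y : ℝ) := h4
      _ ≤ (2 * K) ^ 2 * (Y / L ^ 2) := h5
      _ ≤ ((2 * K) ^ 2 + 2 * C1 * (2 * K) ^ 2 + 2 * C3) * (Y / L ^ 2) := by
          apply mul_le_mul_of_nonneg_right _ hNL
          have : 0 ≤ 2 * C1 * (2 * K) ^ 2 + 2 * C3 := by positivity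
          linarith
      _ ≤ _ := le_mul_of_one_le_right (by positivity) hsing
  · set w := (Y : ℝ) ^ (1 / (2 * K)) with hw
    have hw0 : 0 < w := by linarith
    have hlogw : Real.log w = L / (2 * K) := by
      rw [hw, Real.log_rpow hN0]; ring
    have hwK : w ^ K = (Y : ℝ) ^ (1 / 2 : ℝ) := by
      rw [hw, ← Real.rpow_mul hN0.le]
      congr 1
      field_simp
    have hwle : w ≤ Y := by
      calc w ≤ (Y : ℝ) ^ (1 : ℝ) := by
            apply Real.rpow_le_rpow_of_exponent_le hN1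
            rw [div_le_one (by positivity)]
            linarith
        _ = Y := Real.rpow_one _
    have h1 := (hs ℕ (fun q => q.Prime ∧ 2 * 2 ≤ q) (fun q h => h) (fun q => (nu r q : ℝ))
      (fun q _ => ⟨by positivity, by exact_mod_cast nu_le r q⟩) w hbig (Ioc Y (2 * Y))
      (fun q n => oc r q n) Y 2 hN0.le (by norm_num) (by
          intro I hI
          exact count_bound r I (fun q hq => (hI q hq).1.1) Y)).1
    rw [hwK] at h1
    have h2 : (((Ioc Y (2 * Y)).filter (fun q => q.Prime ∧ (q * r + 1).Prime)).card : ℝ) ≤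
        evCount (Ioc Y (2 * Y)) (fun n => ∀ q : ℕ, (q.Prime ∧ 2 * 2 ≤ q) → (q : ℝ) ≤ w →
          ¬ oc r q n) := by
      rw [evCount_eq]
      have h3 : (Ioc Y (2 * Y)).filter (fun q => q.Prime ∧ (q * r + 1).Prime) ⊆
          (Ioc Y (2 * Y)).filter (fun n => ∀ q : ℕ, (q.Prime ∧ 2 * 2 ≤ q) → (q : ℝ) ≤ w →
          ¬ oc r q n) := by
        intro n hn
        rw [Finset.mem_filter, Finset.mem_Ioc] at hn
        rw [Finset.mem_filter, Finset.mem_Ioc]
        refine ⟨hn.1, ?_⟩
        intro q hq hqw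
        have hqY : q ≤ Y := by exact_mod_cast hqw.trans hwle
        rintro (h | h)
        · have h4 := (Nat.prime_dvd_prime_iff_eq hq.1 hn.2.1).mp h
          omega
        · have h4 := (Nat.prime_dvd_prime_iff_eq hq.1 hn.2.2).mp h
          have h5 : n * 1 ≤ n * r := Nat.mul_le_mul_left n hr
          omega
      exact_mod_cast Finset.card_le_card h3
    have h3 := hp r hr w hbig
    rw [hlogw, div_pow] at h3
    have h4 := hL Y hN1
    have h5 : (Y : ℝ) ^ (1 / 2 : ℝ) ≤ C3 * (Y / L ^ 2) := by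
      rw [← mul_div_assoc, le_div_iff₀ hLk]
      have h6 : (Y : ℝ) ^ (1 / 2 : ℝ) * (Y : ℝ) ^ (1 / 2 : ℝ) = Y := by
        rw [← Real.rpow_add hN0]; norm_num
      calc (Y : ℝ) ^ (1 / 2 : ℝ) * L ^ 2 ≤ (Y : ℝ) ^ (1 / 2 : ℝ) * (C3 * (Y : ℝ) ^ (1 / 2 : ℝ)) := by
            gcongr
        _ = C3 * ((Y : ℝ) ^ (1 / 2 : ℝ) * (Y : ℝ) ^ (1 / 2 : ℝ)) := by ring
        _ = C3 * Y := by rw [h6]
    have h6 : 2 * (Y : ℝ) * (C1 / (L ^ 2 / (2 * K) ^ 2) * hh r) =
        2 * C1 * (2 * K) ^ 2 * (Y / L ^ 2) * hh r := by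
      field_simp
    have h7 : 2 * (Y : ℝ) * ∏ q ∈ pU (fun q => q.Prime ∧ 2 * 2 ≤ q) w, (1 - (nu r q : ℝ) / q) ≤
        2 * C1 * (2 * K) ^ 2 * (Y / L ^ 2) * hh r := by
      rw [← h6]
      exact mul_le_mul_of_nonneg_left h3 (by positivity)
    have h8 : 2 * (Y : ℝ) ^ (1 / 2 : ℝ) ≤ 2 * C3 * (Y / L ^ 2) * hh r := by
      calc 2 * (Y : ℝ) ^ (1 / 2 : ℝ) ≤ 2 * C3 * (Y / L ^ 2) := by linarith
        _ ≤ _ := le_mul_of_one_le_right (by positivity) hsing
    have h9 : 0 ≤ (2 * K) ^ 2 * (Y / L ^ 2) * hh r := by positivity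
    calc _ ≤ _ := h2
      _ ≤ 2 * C1 * (2 * K) ^ 2 * (Y / L ^ 2) * hh r +
          2 * C3 * (Y / L ^ 2) * hh r := by linarith
      _ ≤ _ := by linarith

end Pool.Agent.Helper96.SP
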