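import Pool.Agent.Helper96.SP.Bump

/-!
# Project SP: module Planch

SP-3. `DD j0 J z r` is a finite sum of translates of `x ↦ Ft j0 J (-x)`, smooth with compact
support, so it is (the real part of) a Schwartz function; Plancherel for Schwartz functions.
`𝓕 DD (ξ) = ∑_k e^(-2πi |k| ξ) FtH (-ξ)` (substitution `u = |k| - b`), and the kernel is odd.
-/

set_option autoImplicit false

open Finset MeasureTheory
open scoped FourierTransform

namespace Pool.Agent.Helper96.SP

namespace PlanchAux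

theorem Ft_smooth (j0 J : ℕ) : ContDiff ℝ (⊤ : ℕ∞) (Ft j0 J) := by
  unfold Ft
  exact (bump.smooth j0 J).sub ((bump.smooth j0 J).comp contDiff_neg)

theorem Ft_odd (j0 J : ℕ) (x : ℝ) : Ft j0 J (-x) = -Ft j0 J x := by
  unfold Ft
  rw [neg_neg]
  ring

theorem Ft_zero {j0 J : ℕ} {x : ℝ} (hx : 2 < |x|) : Ft j0 J x = 0 := by
  have h0 : (1 / 2 : ℝ) ^ j0 ≤ 1 := pow_le_one₀ (by norm_num) (by norm_num)
  have key : ∀ y : ℝ, 2 < |y| → FF j0 J y = 0 := by
    intro y hy
    by_contra h
    obtain ⟨h1, h2⟩ := bump.supp j0 J y h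
    have h3 : (0 : ℝ) < (1 / 2) ^ (j0 + J) := by positivity
    rw [abs_of_pos (h3.trans h1)] at hy
    linarith
  unfold Ft
  rw [key x hx, key (-x) (by rwa [abs_neg]), sub_zero]

theorem Ft_cs (j0 J : ℕ) : HasCompactSupport (Ft j0 J) := by
  refine HasCompactSupport.intro (isCompact_Icc (a := (-2 : ℝ)) (b := 2)) ?_
  intro x hx
  apply Ft_zero
  by_contra h
  push Not at h
  exact hx (abs_le.1 h)

/-- a translate -/
theorem tr_cs (j0 J : ℕ) (c : ℝ) : HasCompactSupport (fun b : ℝ => Ft j0 J (c - b)) := by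
  refine HasCompactSupport.intro (isCompact_Icc (a := c - 2) (b := c + 2)) ?_
  intro x hx
  apply Ft_zero
  by_contra h
  push Not at h
  have := abs_le.1 h
  exact hx ⟨by linarith [this.2], by linarith [this.1]⟩

theorem tr_smooth (j0 J : ℕ) (c : ℝ) : ContDiff ℝ (⊤ : ℕ∞) (fun b : ℝ => Ft j0 J (c - b)) :=
  (Ft_smooth j0 J).comp (contDiff_const.sub contDiff_id)

theorem DD_smooth (j0 J : ℕ) (z : ℝ) (r : ℕ) : ContDiff ℝ (⊤ : ℕ∞) (DD j0 J z r) := by
  unfold DD
  exact ContDiff.sum fun k _ => tr_smooth j0 J (lg z k)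

theorem DD_cs (j0 J : ℕ) (z : ℝ) (r : ℕ) : HasCompactSupport (DD j0 J z r) := by
  classical
  have key : ∀ s : Finset ℕ, HasCompactSupport (fun b : ℝ => ∑ k ∈ s, Ft j0 J (lg z k - b)) := by
    intro s
    induction s using Finset.induction_on with
    | empty =>
      refine HasCompactSupport.intro (isCompact_empty) fun x _ => ?_
      simp
    | insert a s ha ih =>
      simp_rw [Finset.sum_insert ha]
      exact (tr_cs j0 J (lg z a)).add ih
  exact key _

/-- the Fourier transform of a translate -/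
theorem F_tr (j0 J : ℕ) (c ξ : ℝ) :
    𝓕 (fun b : ℝ => ((Ft j0 J (c - b) : ℝ) : ℂ)) ξ =
      -(Complex.exp (-(2 * Real.pi * (c * ξ : ℝ) * Complex.I)) * FtH j0 J ξ) := by
  unfold FtH
  rw [Real.fourier_real_eq_integral_exp_smul, Real.fourier_real_eq_integral_exp_smul,
    ← MeasureTheory.integral_const_mul, ← MeasureTheory.integral_neg]
  rw [← MeasureTheory.integral_add_left_eq_self (μ := volume) _ c]
  refine integral_congr_ae (Filter.Eventually.of_forall fun x => ?_)
  simp only [smul_eq_mul]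
  have e1 : c - (c + x) = -x := by ring
  rw [e1, Ft_odd]
  have e2 : Complex.exp (((-2 * Real.pi * (c + x) * ξ : ℝ) : ℂ) * Complex.I) =
      Complex.exp (-(2 * Real.pi * (c * ξ : ℝ) * Complex.I)) *
        Complex.exp (((-2 * Real.pi * x * ξ : ℝ) : ℂ) * Complex.I) := by
    rw [← Complex.exp_add]
    congr 1
    push_cast
    ring
  rw [e2]
  push_cast
  ring

end PlanchAux

open PlanchAux

theorem planch : Planch := by
  intro j0 J z r
  have hsm := DD_smooth j0 J z r
  have hcs := DD_cs j0 J z r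
  have hsmC : ContDiff ℝ (⊤ : ℕ∞) (fun b : ℝ => ((DD j0 J z r b : ℝ) : ℂ)) :=
    Complex.ofRealCLM.contDiff.comp hsm
  have hcsC : HasCompactSupport (fun b : ℝ => ((DD j0 J z r b : ℝ) : ℂ)) :=
    hcs.comp_left (g := fun x : ℝ => (x : ℂ)) Complex.ofReal_zero
  set f : SchwartzMap ℝ ℂ := hcsC.toSchwartzMap hsmC with hf
  have hfx : ∀ b, f b = ((DD j0 J z r b : ℝ) : ℂ) := fun b => rfl
  -- the Fourier transform
  have hF : ∀ ξ : ℝ, (𝓕 f) ξ = -(star (ph z r ξ) * FtH j0 J ξ) := by
    intro ξ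
    rw [SchwartzMap.fourier_coe]
    have h1 : (f : ℝ → ℂ) = fun b : ℝ => ∑ k ∈ r.divisors, ((Ft j0 J (lg z k - b) : ℝ) : ℂ) := by
      funext b
      rw [hfx]
      unfold DD
      push_cast
      rfl
    rw [h1, Real.fourier_real_eq_integral_exp_smul]
    simp only [Finset.smul_sum]
    have hint : ∀ k ∈ r.divisors, Integrable (fun v : ℝ =>
        Complex.exp (((-2 * Real.pi * v * ξ : ℝ) : ℂ) * Complex.I) •
          ((Ft j0 J (lg z k - v) : ℝ) : ℂ)) := by
      intro k _
      have hc : Continuous (fun v : ℝ => Complex.exp (((-2 * Real.pi * v * ξ : ℝ) : ℂ) * Complex.I) •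
          ((Ft j0 J (lg z k - v) : ℝ) : ℂ)) := by
        have := (tr_smooth j0 J (lg z k)).continuous
        fun_prop
      refine hc.integrable_of_hasCompactSupport ?_
      have hcs2 : HasCompactSupport (fun v : ℝ => ((Ft j0 J (lg z k - v) : ℝ) : ℂ)) :=
        (tr_cs j0 J (lg z k)).comp_left (g := fun x : ℝ => (x : ℂ)) Complex.ofReal_zero
      exact hcs2.mul_left
    rw [MeasureTheory.integral_finsetSum _ hint]
    have h2 : ∀ k ∈ r.divisors, ∫ v : ℝ, Complex.exp (((-2 * Real.pi * v * ξ : ℝ) : ℂ) * Complex.I) •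
          ((Ft j0 J (lg z k - v) : ℝ) : ℂ) =
        -(Complex.exp (-(2 * Real.pi * (lg z k * ξ : ℝ) * Complex.I)) * FtH j0 J ξ) := by
      intro k _
      rw [← F_tr, Real.fourier_real_eq_integral_exp_smul]
    rw [Finset.sum_congr rfl h2, Finset.sum_neg_distrib, ← Finset.sum_mul]
    congr 2
    unfold ph
    rw [Complex.star_def, map_sum]
    refine Finset.sum_congr rfl fun k _ => ?_
    rw [← Complex.exp_conj]
    congr 1
    simp only [map_mul, Complex.conj_I, Complex.conj_ofReal, map_ofNat]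
    ring
  have hn : ∀ ξ : ℝ, ‖(𝓕 f) ξ‖ ^ 2 = ‖FtH j0 J ξ‖ ^ 2 * ‖ph z r ξ‖ ^ 2 := by
    intro ξ
    rw [hF, norm_neg, norm_mul, norm_star]
    ring
  have hn2 : ∀ b : ℝ, ‖f b‖ ^ 2 = DD j0 J z r b ^ 2 := by
    intro b
    rw [hfx, Complex.norm_real, Real.norm_eq_abs, sq_abs]
  have hi : ∀ g : SchwartzMap ℝ ℂ, Integrable (fun x => ‖g x‖ ^ 2) := by
    intro g
    have := (g.memLp 2 (μ := volume)).integrable_norm_pow (by norm_num)
    simpa using this
  refine ⟨hsm.continuous, ?_, ?_, ?_⟩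
  · have := hi f
    simp_rw [hn2] at this
    exact this
  · have := hi (𝓕 f)
    simp_rw [hn] at this
    exact this
  · have := SchwartzMap.integral_norm_sq_fourier f
    simp_rw [hn, hn2] at this
    exact this.symm

end Pool.Agent.Helper96.SP
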