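import Pool.Agent.Helper96.SP.St
import Pool.Agent.Helper44.MertensProd

/-!
# Project SP: module TwM

SP-4 (proof by helper33, cells of equal length and the potential `(sin (ξ v) - 1) / (ξ v)`, whose
derivative is at least `cos (ξ v) / v`). Original plan: `Helper44.mertens_interval` (`∑_{u < p ≤ v} 1/p = log (log v / log u) + O(1/log u)`).
`|ξ| ≤ 1`: trivial bound `∑_{p ≤ z} 1/p ≤ log log z + C` (as `log (1+|ξ|) ≤ 1`). `|ξ| > 1`: primes
`p ≤ z^(1/|ξ|)`: trivial, `log (log z/|ξ|) + C`. Primes in `(z^(1/|ξ|), z]`: cut `(1/|ξ|, 1]` into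
`N` intervals of equal ratio or equal length (`N` depends on `A` only), on each the cosine is
replaced by its value at a point (error `≤ 2π A /N` times the sum of `1/p`), Mertens on each, and
`∫_{1/|ξ|}^1 cos (2π ξ t) dt/t = ∫_1^{|ξ|} cos (2π u) du/u ≤ 1` (integration by parts). `C` must not
depend on `A`.
-/

set_option autoImplicit false

open Finset MeasureTheory
open scoped FourierTransform

namespace Pool.Agent.Helper96.SP

namespace TwMAux

open Pool.Agent.Helper44

theorem cos_le_add {x y h : ℝ} (hxy : |x - y| ≤ h) : Real.cos x ≤ Real.cos y + h := by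
  have h1 : |Real.cos x - Real.cos y| ≤ |x - y| := by
    have := Real.abs_cos_sub_cos_le x y
    exact this
  have h2 := (abs_le.1 (h1.trans hxy)).2
  linarith

/-- the potential -/
noncomputable def GG (ξ v : ℝ) : ℝ := (Real.sin (ξ * v) - 1) / (ξ * v)

theorem cell_mono {ξ h a b : ℝ} (hξ : 0 < ξ) (ha : 0 < a) (hab : a ≤ b) (hb : b ≤ a + h) :
    Real.cos (ξ * a) * Real.log (b / a) ≤
      GG ξ b - GG ξ a + ξ * h * Real.log (b / a) := by
  have hd : ∀ v : ℝ, 0 < v → HasDerivAt (fun v => GG ξ v + (ξ * h - Real.cos (ξ * a)) * Real.log v)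
      ((Real.cos (ξ * v) * ξ * (ξ * v) - (Real.sin (ξ * v) - 1) * ξ) / (ξ * v) ^ 2 +
        (ξ * h - Real.cos (ξ * a)) * v⁻¹) v := by
    intro v hv
    have hne : ξ * v ≠ 0 := by positivity
    have h1 : HasDerivAt (fun v : ℝ => ξ * v) ξ v := by
      simpa using (hasDerivAt_id v).const_mul ξ
    have h2 : HasDerivAt (fun v : ℝ => Real.sin (ξ * v) - 1) (Real.cos (ξ * v) * ξ) v :=
      (h1.sin).sub_const 1
    have h3 := h2.div h1 hne
    have h4 := (Real.hasDerivAt_log hv.ne').const_mul (ξ * h - Real.cos (ξ * a))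
    exact h3.add h4
  have hmono : MonotoneOn (fun v => GG ξ v + (ξ * h - Real.cos (ξ * a)) * Real.log v)
      (Set.Icc a b) := by
    apply monotoneOn_of_deriv_nonneg (convex_Icc a b)
    · intro v hv
      exact (hd v (ha.trans_le hv.1)).continuousAt.continuousWithinAt
    · intro v hv
      rw [interior_Icc] at hv
      exact (hd v (ha.trans hv.1)).differentiableAt.differentiableWithinAt
    · intro v hv
      rw [interior_Icc] at hv
      have hv0 : 0 < v := ha.trans hv.1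
      rw [(hd v hv0).deriv]
      have h1 : Real.cos (ξ * a) ≤ Real.cos (ξ * v) + ξ * h := by
        apply cos_le_add
        rw [← mul_sub, abs_mul, abs_of_pos hξ]
        apply mul_le_mul_of_nonneg_left _ hξ.le
        rw [abs_le]
        constructor <;> linarith [hv.1, hv.2]
      have h2 : (Real.cos (ξ * v) * ξ * (ξ * v) - (Real.sin (ξ * v) - 1) * ξ) / (ξ * v) ^ 2 =
          Real.cos (ξ * v) * v⁻¹ + (1 - Real.sin (ξ * v)) / (ξ * v ^ 2) := by
        field_simp
        ring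
      rw [h2]
      have h3 : 0 ≤ (1 - Real.sin (ξ * v)) / (ξ * v ^ 2) := by
        apply div_nonneg _ (by positivity)
        linarith [Real.sin_le_one (ξ * v)]
      have h4 : 0 ≤ (Real.cos (ξ * v) + (ξ * h - Real.cos (ξ * a))) * v⁻¹ :=
        mul_nonneg (by linarith) (by positivity)
      linarith [h4]
  have h5 := hmono (Set.left_mem_Icc.2 hab) (Set.right_mem_Icc.2 hab) hab
  simp only at h5
  have hb0 : 0 < b := ha.trans_le hab
  rw [Real.log_div hb0.ne' ha.ne']
  linarith [h5]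

theorem cell_sum {C ξ h z a b : ℝ} (hM : ∀ x y : ℝ, 2 ≤ x → x ≤ y →
    |∑ q ∈ (Finset.Ioc ⌊x⌋₊ ⌊y⌋₊).filter Nat.Prime, (1:ℝ)/q - Real.log (Real.log y / Real.log x)|
      ≤ C / Real.log x) (hξ : 0 < ξ) (hh : 0 ≤ h) (hz : 1 < z) (ha : 0 < a) (hab : a ≤ b)
    (hb : b ≤ a + h) (hza : 2 ≤ z ^ a) :
    ∑ p ∈ (Finset.Ioc ⌊z ^ a⌋₊ ⌊z ^ b⌋₊).filter Nat.Prime,
      Real.cos (ξ * (Real.log p / Real.log z)) / p ≤
      GG ξ b - GG ξ a + 2 * (ξ * h) * Real.log (b / a) + (1 + ξ * h) * (C / (a * Real.log z)) := by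
  have hz0 : 0 < z := by linarith
  have hL : 0 < Real.log z := Real.log_pos hz
  have hle : z ^ a ≤ z ^ b := Real.rpow_le_rpow_of_exponent_le hz.le hab
  have h1 := hM (z ^ a) (z ^ b) hza hle
  rw [Real.log_rpow hz0, Real.log_rpow hz0, mul_div_mul_right _ _ hL.ne'] at h1
  set m := ∑ q ∈ (Finset.Ioc ⌊z ^ a⌋₊ ⌊z ^ b⌋₊).filter Nat.Prime, (1:ℝ)/q with hm
  have h2 : ∑ p ∈ (Finset.Ioc ⌊z ^ a⌋₊ ⌊z ^ b⌋₊).filter Nat.Prime,
      Real.cos (ξ * (Real.log p / Real.log z)) / p ≤ (Real.cos (ξ * a) + ξ * h) * m := by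
    rw [hm, Finset.mul_sum]
    refine Finset.sum_le_sum fun p hp => ?_
    rw [Finset.mem_filter, Finset.mem_Ioc] at hp
    have hp0 : (0 : ℝ) < p := by exact_mod_cast hp.2.pos
    have hpa : z ^ a < p := Nat.lt_of_floor_lt hp.1.1
    have hpb : (p : ℝ) ≤ z ^ b := (Nat.le_floor_iff (by positivity)).1 hp.1.2
    have h3 : a ≤ Real.log p / Real.log z := by
      rw [le_div_iff₀ hL, ← Real.log_rpow hz0]
      exact Real.log_le_log (by positivity) hpa.le
    have h4 : Real.log p / Real.log z ≤ b := by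
      rw [div_le_iff₀ hL, ← Real.log_rpow hz0]
      exact Real.log_le_log hp0 hpb
    have h5 : Real.cos (ξ * (Real.log p / Real.log z)) ≤ Real.cos (ξ * a) + ξ * h := by
      apply cos_le_add
      rw [← mul_sub, abs_mul, abs_of_pos hξ]
      apply mul_le_mul_of_nonneg_left _ hξ.le
      rw [abs_le]
      constructor <;> linarith
    rw [mul_one_div]
    exact div_le_div_of_nonneg_right h5 hp0.le
  have hmono := cell_mono hξ ha hab hb
  have hcos := Real.abs_cos_le_one (ξ * a)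
  have hξh : 0 ≤ ξ * h := by positivity
  have h6 : (Real.cos (ξ * a) + ξ * h) * (m - Real.log (b / a)) ≤
      (1 + ξ * h) * (C / (a * Real.log z)) := by
    calc (Real.cos (ξ * a) + ξ * h) * (m - Real.log (b / a)) ≤
        |(Real.cos (ξ * a) + ξ * h) * (m - Real.log (b / a))| := le_abs_self _
      _ = |Real.cos (ξ * a) + ξ * h| * |m - Real.log (b / a)| := abs_mul _ _
      _ ≤ (1 + ξ * h) * (C / (a * Real.log z)) := by
        apply mul_le_mul _ h1 (abs_nonneg _) (by positivity)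
        calc |Real.cos (ξ * a) + ξ * h| ≤ |Real.cos (ξ * a)| + |ξ * h| := abs_add_le _ _
          _ ≤ 1 + ξ * h := by rw [abs_of_nonneg hξh]; linarith
  nlinarith [h2, h6, hmono]

theorem range_sum {C ξ h z v₀ : ℝ} (hM : ∀ x y : ℝ, 2 ≤ x → x ≤ y →
    |∑ q ∈ (Finset.Ioc ⌊x⌋₊ ⌊y⌋₊).filter Nat.Prime, (1:ℝ)/q - Real.log (Real.log y / Real.log x)|
      ≤ C / Real.log x) (hC : 0 < C) (hξ : 0 < ξ) (hh : 0 ≤ h) (hz : 1 < z) (hv : 0 < v₀)
    (hzv : 2 ≤ z ^ v₀) (n : ℕ) :
    ∑ p ∈ (Finset.Ioc ⌊z ^ v₀⌋₊ ⌊z ^ (v₀ + n * h)⌋₊).filter Nat.Prime,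
      Real.cos (ξ * (Real.log p / Real.log z)) / p ≤
      GG ξ (v₀ + n * h) - GG ξ v₀ + 2 * (ξ * h) * Real.log ((v₀ + n * h) / v₀) +
        n * ((1 + ξ * h) * (C / (v₀ * Real.log z))) := by
  have hz0 : 0 < z := by linarith
  have hL : 0 < Real.log z := Real.log_pos hz
  induction n with
  | zero =>
    simp [hv.ne']
  | succ n ih =>
    set a := v₀ + n * h with ha
    have ha' : v₀ ≤ a := by rw [ha]; nlinarith [mul_nonneg (Nat.cast_nonneg (α := ℝ) n) hh]
    have hb : v₀ + ((n + 1 : ℕ) : ℝ) * h = a + h := by push_cast; rw [ha]; ring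
    rw [hb]
    have ha0 : 0 < a := hv.trans_le ha'
    have hza : z ^ v₀ ≤ z ^ a := Real.rpow_le_rpow_of_exponent_le hz.le ha'
    have hzb : z ^ a ≤ z ^ (a + h) := Real.rpow_le_rpow_of_exponent_le hz.le (by linarith)
    have hc := cell_sum hM hξ hh hz ha0 (by linarith) le_rfl (hzv.trans hza)
    have hsplit : ∑ p ∈ (Finset.Ioc ⌊z ^ v₀⌋₊ ⌊z ^ (a + h)⌋₊).filter Nat.Prime,
        Real.cos (ξ * (Real.log p / Real.log z)) / p =
        ∑ p ∈ (Finset.Ioc ⌊z ^ v₀⌋₊ ⌊z ^ a⌋₊).filter Nat.Prime,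
          Real.cos (ξ * (Real.log p / Real.log z)) / p +
        ∑ p ∈ (Finset.Ioc ⌊z ^ a⌋₊ ⌊z ^ (a + h)⌋₊).filter Nat.Prime,
          Real.cos (ξ * (Real.log p / Real.log z)) / p := by
      rw [Finset.sum_filter, Finset.sum_filter, Finset.sum_filter]
      exact (Finset.sum_Ioc_consecutive _ (Nat.floor_le_floor hza) (Nat.floor_le_floor hzb)).symm
    rw [hsplit]
    have hlog : Real.log ((a + h) / v₀) = Real.log (a / v₀) + Real.log ((a + h) / a) := by
      rw [Real.log_div (by positivity) hv.ne', Real.log_div ha0.ne' hv.ne',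
        Real.log_div (by positivity) ha0.ne']
      ring
    rw [hlog]
    have he : (1 + ξ * h) * (C / (a * Real.log z)) ≤ (1 + ξ * h) * (C / (v₀ * Real.log z)) := by
      apply mul_le_mul_of_nonneg_left _ (by positivity)
      apply div_le_div_of_nonneg_left hC.le (by positivity)
      exact mul_le_mul_of_nonneg_right ha' hL.le
    push_cast
    nlinarith [ih, hc, he]

theorem twisted_mertens : ∃ C : ℝ, 0 < C ∧ ∀ A : ℝ, 1 ≤ A → ∃ z₀ : ℝ, ∀ z : ℝ, z₀ ≤ z →
    ∀ ξ : ℝ, |ξ| ≤ A →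
    ∑ p ∈ primesUpTo z, Real.cos (ξ * (Real.log p / Real.log z)) / p ≤
      Real.log (Real.log z) - Real.log (1 + |ξ|) + C := by
  obtain ⟨C, hC, hM⟩ := mertens_interval
  obtain ⟨C₁, hC₁, hM₁⟩ := sum_primesUpTo_bounds
  refine ⟨C₁ + 8, by positivity, ?_⟩
  intro A hA
  set K : ℕ := ⌈A ^ 2⌉₊ + 1 with hK
  have hKA : A ^ 2 ≤ K := by
    have := Nat.le_ceil (A ^ 2)
    rw [hK]; push_cast; linarith
  have hK0 : (0 : ℝ) < K := by positivity
  refine ⟨max (Real.exp (K * (2 * (C * (1 + A))))) ((3 : ℝ) ^ (1 + A)), ?_⟩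
  intro z hz ξ hξ
  have hz3 : (3 : ℝ) ^ (1 + A) ≤ z := (le_max_right _ _).trans hz
  have h3 : (3 : ℝ) ≤ z := by
    refine le_trans ?_ hz3
    calc (3 : ℝ) = (3 : ℝ) ^ (1 : ℝ) := (Real.rpow_one 3).symm
      _ ≤ (3 : ℝ) ^ (1 + A) := Real.rpow_le_rpow_of_exponent_le (by norm_num) (by linarith)
  have hz0 : 0 < z := by linarith
  have hz1 : 1 < z := by linarith
  have hL : 0 < Real.log z := Real.log_pos hz1
  have hLK : K * (2 * (C * (1 + A))) ≤ Real.log z := by
    rw [← Real.log_exp (K * (2 * (C * (1 + A))))]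
    exact Real.log_le_log (Real.exp_pos _) ((le_max_left _ _).trans hz)
  -- reduce to nonnegative `ξ`
  wlog hpos : 0 ≤ ξ generalizing ξ
  · have h1 := this (-ξ) (by rwa [abs_neg]) (by linarith)
    rw [abs_neg] at h1
    refine le_trans (le_of_eq ?_) h1
    refine Finset.sum_congr rfl fun p _ => ?_
    rw [neg_mul, Real.cos_neg]
  rw [abs_of_nonneg hpos] at hξ ⊢
  rcases le_or_gt ξ 1 with h1 | h1
  · -- small `ξ`
    have h2 : ∑ p ∈ primesUpTo z, Real.cos (ξ * (Real.log p / Real.log z)) / p ≤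
        ∑ p ∈ primesUpTo z, (1 : ℝ) / p := by
      refine Finset.sum_le_sum fun p _ => ?_
      exact div_le_div_of_nonneg_right (Real.cos_le_one _) (Nat.cast_nonneg p)
    have h4 := (abs_le.1 (hM₁ z (by linarith))).2
    have h5 : Real.log (1 + ξ) ≤ 1 := by
      have := Real.log_le_sub_one_of_pos (show 0 < 1 + ξ by linarith)
      linarith
    linarith
  · have hξ0 : 0 < ξ := by linarith
    set v₀ : ℝ := 1 / (1 + ξ) with hv₀
    have hv0 : 0 < v₀ := by positivity
    have hv1 : v₀ ≤ 1 := by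
      rw [hv₀, div_le_one (by positivity)]; linarith
    have hvA : 1 / (1 + A) ≤ v₀ := by
      rw [hv₀]
      exact one_div_le_one_div_of_le (by positivity) (by linarith)
    have hzv : 3 ≤ z ^ v₀ := by
      calc (3 : ℝ) = ((3 : ℝ) ^ (1 + A)) ^ (1 / (1 + A)) := by
            rw [← Real.rpow_mul (by norm_num), mul_one_div_cancel (by positivity), Real.rpow_one]
        _ ≤ z ^ (1 / (1 + A)) := Real.rpow_le_rpow (by positivity) hz3 (by positivity)
        _ ≤ z ^ v₀ := Real.rpow_le_rpow_of_exponent_le hz1.le hvA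
    set h : ℝ := (1 - v₀) / K with hh
    have hh0 : 0 ≤ h := div_nonneg (by linarith) hK0.le
    have hhK : h ≤ 1 / K := div_le_div_of_nonneg_right (by linarith) hK0.le
    have hr := range_sum hM hC hξ0 hh0 hz1 hv0 (by linarith) K
    have hvK : v₀ + K * h = 1 := by
      rw [hh]; field_simp; ring
    rw [hvK, Real.rpow_one] at hr
    have hsplit : ∑ p ∈ primesUpTo z, Real.cos (ξ * (Real.log p / Real.log z)) / p =
        ∑ p ∈ primesUpTo (z ^ v₀), Real.cos (ξ * (Real.log p / Real.log z)) / p +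
        ∑ p ∈ (Finset.Ioc ⌊z ^ v₀⌋₊ ⌊z⌋₊).filter Nat.Prime,
          Real.cos (ξ * (Real.log p / Real.log z)) / p := by
      unfold primesUpTo
      rw [Finset.sum_filter, Finset.sum_filter, Finset.sum_filter]
      refine (Finset.sum_Ioc_consecutive _ (Nat.zero_le _) (Nat.floor_le_floor ?_)).symm
      calc z ^ v₀ ≤ z ^ (1 : ℝ) := Real.rpow_le_rpow_of_exponent_le hz1.le hv1
        _ = z := Real.rpow_one z
    have hlow : ∑ p ∈ primesUpTo (z ^ v₀), Real.cos (ξ * (Real.log p / Real.log z)) / p ≤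
        Real.log (Real.log z) - Real.log (1 + ξ) + C₁ := by
      have h2 : ∑ p ∈ primesUpTo (z ^ v₀), Real.cos (ξ * (Real.log p / Real.log z)) / p ≤
          ∑ p ∈ primesUpTo (z ^ v₀), (1 : ℝ) / p := by
        refine Finset.sum_le_sum fun p _ => ?_
        exact div_le_div_of_nonneg_right (Real.cos_le_one _) (Nat.cast_nonneg p)
      have h4 := (abs_le.1 (hM₁ (z ^ v₀) (by linarith))).2
      rw [Real.log_rpow hz0, Real.log_mul hv0.ne' hL.ne'] at h4
      have h5 : Real.log v₀ = - Real.log (1 + ξ) := by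
        rw [hv₀, one_div, Real.log_inv]
      rw [h5] at h4
      linarith
    have hG : GG ξ 1 - GG ξ v₀ ≤ 4 := by
      unfold GG
      have h2 : (Real.sin (ξ * 1) - 1) / (ξ * 1) ≤ 0 :=
        div_nonpos_of_nonpos_of_nonneg (by linarith [Real.sin_le_one (ξ * 1)]) (by linarith)
      have h4 : -((Real.sin (ξ * v₀) - 1) / (ξ * v₀)) ≤ 2 / (ξ * v₀) := by
        rw [← neg_div]
        exact div_le_div_of_nonneg_right (by linarith [Real.neg_one_le_sin (ξ * v₀)])
          (by positivity)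
      have h5 : 2 / (ξ * v₀) ≤ 4 := by
        rw [div_le_iff₀ (by positivity), hv₀]
        rw [mul_one_div, mul_div_assoc', le_div_iff₀ (by positivity)]
        nlinarith
      linarith
    have hlog : 2 * (ξ * h) * Real.log (1 / v₀) ≤ 2 := by
      have h2 : Real.log (1 / v₀) ≤ ξ := by
        rw [hv₀, one_div_one_div]
        have := Real.log_le_sub_one_of_pos (show 0 < 1 + ξ by linarith)
        linarith
      have h4 : 0 ≤ Real.log (1 / v₀) := by
        apply Real.log_nonneg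
        rw [le_div_iff₀ hv0]; linarith
      calc 2 * (ξ * h) * Real.log (1 / v₀) ≤ 2 * (ξ * (1 / K)) * ξ := by gcongr
        _ = 2 * (ξ ^ 2 / K) := by ring
        _ ≤ 2 * 1 := by
          gcongr
          rw [div_le_one hK0]
          nlinarith
        _ = 2 := by ring
    have hE : (K : ℝ) * ((1 + ξ * h) * (C / (v₀ * Real.log z))) ≤ 1 := by
      have h2 : ξ * h ≤ 1 := by
        calc ξ * h ≤ A * (1 / K) := by gcongr
          _ = A / K := by ring
          _ ≤ 1 := by
            rw [div_le_one hK0]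
            nlinarith
      have h4 : C / (v₀ * Real.log z) ≤ C * (1 + A) / Real.log z := by
        rw [div_le_div_iff₀ (by positivity) hL]
        have h5 : 1 ≤ (1 + A) * v₀ := by
          have := mul_le_mul_of_nonneg_left hvA (show 0 ≤ 1 + A by linarith)
          rwa [mul_one_div_cancel (by positivity)] at this
        have h6 : 0 ≤ C * Real.log z := by positivity
        nlinarith [mul_le_mul_of_nonneg_left h5 h6]
      calc (K : ℝ) * ((1 + ξ * h) * (C / (v₀ * Real.log z))) ≤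
          K * ((1 + 1) * (C * (1 + A) / Real.log z)) := by gcongr
        _ = K * (2 * (C * (1 + A))) / Real.log z := by ring
        _ ≤ 1 := by rw [div_le_one hL]; exact hLK
    rw [hsplit]
    linarith


end TwMAux

theorem twM : TwM := by
  obtain ⟨C, hC, h⟩ := TwMAux.twisted_mertens
  refine ⟨C, ?_⟩
  intro A hA
  obtain ⟨z₀, hz₀⟩ := h (max 1 (2 * Real.pi * A)) (le_max_left _ _)
  refine ⟨max 3 z₀, le_max_left _ _, ?_⟩
  intro z hz ξ hξ
  have hπ := Real.pi_pos
  have hπ3 := Real.pi_gt_three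
  have h1 : |2 * Real.pi * ξ| = 2 * Real.pi * |ξ| := by
    rw [abs_mul, abs_of_pos (by positivity)]
  have h2 : |2 * Real.pi * ξ| ≤ max 1 (2 * Real.pi * A) := by
    rw [h1]
    exact (mul_le_mul_of_nonneg_left hξ (by positivity)).trans (le_max_right _ _)
  have h3 := hz₀ z ((le_max_right _ _).trans hz) (2 * Real.pi * ξ) h2
  have h4 : ∑ p ∈ (Icc 1 ⌊z⌋₊).filter Nat.Prime, Real.cos (2 * Real.pi * (lg z p * ξ)) / (p : ℝ) =
      ∑ p ∈ Helper44.primesUpTo z, Real.cos (2 * Real.pi * ξ * (Real.log p / Real.log z)) / p := by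
    unfold Helper44.primesUpTo
    refine Finset.sum_congr ?_ ?_
    · ext p
      rw [Finset.mem_filter, Finset.mem_filter, Finset.mem_Icc, Finset.mem_Ioc]
      exact Iff.rfl
    · intro p _
      unfold lg
      congr 2
      ring
  rw [h4]
  refine h3.trans ?_
  have h5 : Real.log (1 + |ξ|) ≤ Real.log (1 + |2 * Real.pi * ξ|) := by
    apply Real.log_le_log (by positivity)
    rw [h1]
    nlinarith [abs_nonneg ξ]
  linarith

end Pool.Agent.Helper96.SP
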