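import Mathlib

/-!
# Project SP (MP_87fff7_nt, phase 2 of project CA): smooth shifted primes beyond `exp(-1/2)/2`

From the Bombieri-Vinogradov theorem (level `1/2 - ε`) alone: for every `θ > exp(-1/2)/2 = 0.30327`
there are `z ^ (1 - o(1))` primes `p ≤ z` with `z ^ θ`-smooth `p - 1`.

`F = FF j0 J` is a weight on the distance to the barrier `1/2`, log-uniform on `(2^(-j0-J), 2^(1-j0))`;
`|m| = lg z m = log m / log z`. For a prime `p` (`|p|` close to `τ`) put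
`W(p) = ∑_{m | p-1} F(τ/2 - |m|) s(m)`, `s(m) = 1` if `m` is `z^θ`-smooth and `-1` otherwise.
If `p - 1 = q r`, `q > z^θ` prime, then `W(p) ≤ ∑_{k | r} (F(|k| - b) - F(b - |k|))`,
`b = (|r| - |q|)/2` (complementary divisors), and the sum of this over all `q, r` is small by an
`L²` argument (Plancherel in `b`, weight `2^(-ω(r))`, Euler product), because the Fourier transform
of `F(x) - F(-x)` is `O(1/J)`.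
-/

set_option autoImplicit false

open Finset MeasureTheory
open scoped FourierTransform

namespace Pool.Agent.Helper96.SP

/-- The bump function, supported in `(1, 2)`. -/
noncomputable def bmp : ContDiffBump (3 / 2 : ℝ) := ⟨1 / 4, 1 / 2, by norm_num, by norm_num⟩

/-- The bump function of integral `1`. -/
noncomputable def psi (x : ℝ) : ℝ := bmp.normed volume x

/-- The weight. -/
noncomputable def FF (j0 J : ℕ) (y : ℝ) : ℝ :=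
  (1 / (J : ℝ)) * ∑ j ∈ range J, (2 : ℝ) ^ (j0 + j) * psi ((2 : ℝ) ^ (j0 + j) * y)

/-- The odd kernel. -/
noncomputable def Ft (j0 J : ℕ) (x : ℝ) : ℝ := FF j0 J x - FF j0 J (-x)

/-- Its Fourier transform. -/
noncomputable def FtH (j0 J : ℕ) (ξ : ℝ) : ℂ := 𝓕 (fun x : ℝ => (Ft j0 J x : ℂ)) ξ

/-- `log n / log z` -/
noncomputable def lg (z : ℝ) (n : ℕ) : ℝ := Real.log n / Real.log z

/-- The difference of the numbers of divisors above and below `b`. -/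
noncomputable def DD (j0 J : ℕ) (z : ℝ) (r : ℕ) (b : ℝ) : ℝ :=
  ∑ k ∈ r.divisors, Ft j0 J (lg z k - b)

/-- The singular series. -/
noncomputable def hh (r : ℕ) : ℝ := ((r : ℝ) / r.totient) ^ 2

/-- The character sum over the divisors. -/
noncomputable def ph (z : ℝ) (r : ℕ) (ξ : ℝ) : ℂ :=
  ∑ k ∈ r.divisors, Complex.exp (2 * Real.pi * (lg z k * ξ : ℝ) * Complex.I)

/-- The weight of `r`. -/
noncomputable def w5 (r : ℕ) : ℝ := hh r ^ 2 / ((2 : ℝ) ^ r.primeFactors.card * r)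

/-- The sign of `m`. -/
noncomputable def sg (θ z : ℝ) (m : ℕ) : ℝ := by
  classical
  exact if ∀ p : ℕ, p.Prime → p ∣ m → (p : ℝ) ≤ z ^ θ then 1 else -1

/-- SP-1: facts on the weight. -/
structure Bump : Prop where
  nonneg : ∀ (j0 J : ℕ) (y : ℝ), 0 ≤ FF j0 J y
  supp : ∀ (j0 J : ℕ) (y : ℝ), FF j0 J y ≠ 0 →
    (1 / 2 : ℝ) ^ (j0 + J) < y ∧ y < 2 * (1 / 2 : ℝ) ^ j0
  smooth : ∀ j0 J : ℕ, ContDiff ℝ (⊤ : ℕ∞) (FF j0 J)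
  lip : ∀ j0 J : ℕ, ∃ K : ℝ, 0 < K ∧ ∀ x y : ℝ, |FF j0 J x - FF j0 J y| ≤ K * |x - y|
  int : ∀ j0 J : ℕ, 1 ≤ J → ∫ y, FF j0 J y = 1

/-- SP-2: the Fourier transform of the odd kernel. -/
def FTbound : Prop :=
  ∃ C : ℝ, 0 < C ∧ ∀ j0 J : ℕ, 1 ≤ J → ∀ ξ : ℝ,
    ‖FtH j0 J ξ‖ ≤ C / J ∧ ‖FtH j0 J ξ‖ * |ξ| ≤ C * 2 ^ (j0 + J) / J

/-- SP-3: Plancherel for the function `DD j0 J z r`. -/
def Planch : Prop :=
  ∀ (j0 J : ℕ) (z : ℝ) (r : ℕ), Continuous (DD j0 J z r) ∧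
    Integrable (fun b => DD j0 J z r b ^ 2) ∧
    Integrable (fun ξ => ‖FtH j0 J ξ‖ ^ 2 * ‖ph z r ξ‖ ^ 2) ∧
    ∫ b, DD j0 J z r b ^ 2 = ∫ ξ, ‖FtH j0 J ξ‖ ^ 2 * ‖ph z r ξ‖ ^ 2

/-- SP-4: twisted Mertens estimate. -/
def TwM : Prop :=
  ∃ C : ℝ, ∀ A : ℝ, 0 < A → ∃ z0 : ℝ, 3 ≤ z0 ∧ ∀ z : ℝ, z0 ≤ z → ∀ ξ : ℝ, |ξ| ≤ A →
    ∑ p ∈ (Icc 1 ⌊z⌋₊).filter Nat.Prime, Real.cos (2 * Real.pi * (lg z p * ξ)) / (p : ℝ) ≤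
      Real.log (Real.log z) - Real.log (1 + |ξ|) + C

/-- SP-5: the Euler product. -/
def Euler : Prop :=
  ∃ C : ℝ, 0 < C ∧
    (∀ z : ℝ, 3 ≤ z → ∀ ξ : ℝ,
      ∑ r ∈ Icc 1 ⌊z⌋₊, w5 r * ‖ph z r ξ‖ ^ 2 ≤ C * Real.log z ^ 2) ∧
    (∀ A : ℝ, 0 < A → ∃ z0 : ℝ, 3 ≤ z0 ∧ ∀ z : ℝ, z0 ≤ z → ∀ ξ : ℝ, |ξ| ≤ A →
      ∑ r ∈ Icc 1 ⌊z⌋₊, w5 r * ‖ph z r ξ‖ ^ 2 ≤ C * Real.log z ^ 2 / (1 + |ξ|))

/-- SP-6: the `L²` bound. -/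
def L2Main : Prop :=
  ∃ C : ℝ, 0 < C ∧ ∀ j0 J : ℕ, 1 ≤ J → j0 ≤ J → ∃ z0 : ℝ, 3 ≤ z0 ∧ ∀ z : ℝ, z0 ≤ z →
    ∀ δ : ℝ, 0 ≤ δ → ∀ β : ℕ → ℝ,
    ∑ r ∈ Icc 1 ⌊z⌋₊, (hh r / r) * ∫ b in (β r)..(β r + δ), |DD j0 J z r b| ≤
      C * Real.log z ^ 2 * Real.sqrt (δ / J)

/-- SP-7: upper bound sieve for the pairs of primes `q`, `q r + 1`. -/
def PairS : Prop :=
  ∃ C : ℝ, 0 < C ∧ ∀ r Y : ℕ, 1 ≤ r → 2 ≤ Y →
    (((Ioc Y (2 * Y)).filter (fun q => q.Prime ∧ (q * r + 1).Prime)).card : ℝ) ≤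
      C * hh r * Y / Real.log Y ^ 2

/-- SP-8: the sum over the primes `p` such that `p - 1 = q r` has a large prime factor `q`. -/
def BadSum : Prop :=
  ∃ C : ℝ, 0 < C ∧ ∀ θ δ : ℝ, 0 < θ → θ ≤ 1 → 0 < δ → δ ≤ 1 → ∀ j0 J : ℕ, 1 ≤ J → j0 ≤ J →
    ∃ z0 : ℝ, 3 ≤ z0 ∧ ∀ z : ℝ, z0 ≤ z → ∀ S : Finset (ℕ × ℕ),
    (∀ s ∈ S, s.1.Prime ∧ (s.1 * s.2 + 1).Prime ∧ z ^ θ < s.1 ∧ 1 ≤ s.2 ∧
      z ^ (1 - δ) ≤ ((s.1 * s.2 : ℕ) : ℝ) ∧ ((s.1 * s.2 : ℕ) : ℝ) ≤ z) →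
    ∑ s ∈ S, (1 / ((s.1 * s.2 : ℕ) : ℝ)) *
        |DD j0 J z s.2 ((lg z s.2 - lg z s.1) / 2)| ≤
      C / θ ^ 2 * Real.log z * Real.sqrt (δ / J) ∧
    ∑ s ∈ S, (1 / ((s.1 * s.2 : ℕ) : ℝ)) * (s.2.divisors.card : ℝ) ≤
      C / θ ^ 2 * Real.log z * δ

/-- SP-9: the pointwise inequality (`F` is `K`-Lipschitz, `τ` is close to `|q r|`). -/
def Point : Prop :=
  ∀ (z θ τ K : ℝ) (F : ℝ → ℝ), 1 < z → (∀ x, 0 ≤ F x) → (∀ x y, |F x - F y| ≤ K * |x - y|) →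
    ∀ q r : ℕ, q.Prime → 1 ≤ r → z ^ θ < (q : ℝ) →
    ∑ m ∈ (q * r).divisors, F (τ / 2 - lg z m) * sg θ z m ≤
      |∑ k ∈ r.divisors, (F (lg z k - (lg z r - lg z q) / 2) -
        F ((lg z r - lg z q) / 2 - lg z k))| +
      K * |τ - lg z q - lg z r| * (r.divisors.card : ℝ)

end Pool.Agent.Helper96.SP
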