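import Pool.Agent.Helper96.SP.St

/-!
# Project SP: module Point

SP-9. Divisors `m` of `q r`: if `sg m = 1` then `q ∤ m`, so `m ∣ r`: the sum over them is
`≤ ∑_{m ∣ r} F(τ/2 - |m|) = ∑_{k ∣ r} F(τ/2 - |r| + |k|)` (`k = r/m`, `Nat.sum_div_divisors`); the divisors
`q k`, `k ∣ r`, are different and have `sg = -1`. Then Lipschitz: both arguments differ by
`(τ - |q| - |r|)/2` from `|k| - b` and `b - |k|`.
-/

set_option autoImplicit false

open Finset MeasureTheory
open scoped FourierTransform

namespace Pool.Agent.Helper96.SP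

namespace PointAux

theorem lg_mul (z : ℝ) {m n : ℕ} (hm : m ≠ 0) (hn : n ≠ 0) :
    lg z (m * n) = lg z m + lg z n := by
  unfold lg
  push_cast
  rw [Real.log_mul (by exact_mod_cast hm) (by exact_mod_cast hn), add_div]

theorem sg_cases (θ z : ℝ) (m : ℕ) : sg θ z m = 1 ∨ sg θ z m = -1 := by
  unfold sg
  split_ifs
  · exact Or.inl rfl
  · exact Or.inr rfl

theorem sg_of_dvd {θ z : ℝ} {q m : ℕ} (hq : q.Prime) (hz : z ^ θ < (q : ℝ)) (h : q ∣ m) :
    sg θ z m = -1 := by
  unfold sg
  rw [if_neg]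
  intro h'
  exact absurd (h' q hq h) (not_le.mpr hz)

end PointAux

open PointAux in
theorem point : Point := by
  classical
  intro z θ τ K F hz hF hK q r hq hr hqz
  have hr0 : r ≠ 0 := by omega
  have hqr : q * r ≠ 0 := mul_ne_zero hq.ne_zero hr0
  have h1 : ∑ m ∈ (q * r).divisors, F (τ / 2 - lg z m) * sg θ z m ≤
      ∑ m ∈ (q * r).divisors, ((if m ∈ r.divisors then F (τ / 2 - lg z m) else 0) -
        (if m ∈ r.divisors.image (fun k => q * k) then F (τ / 2 - lg z m) else 0)) := by
    refine sum_le_sum fun m hm => ?_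
    have hFm := hF (τ / 2 - lg z m)
    rcases sg_cases θ z m with hs | hs
    · have hqm : ¬ q ∣ m := by
        intro h
        rw [sg_of_dvd hq hqz h] at hs
        norm_num at hs
      have hmr : m ∣ r := by
        have h2 : m ∣ q * r := (Nat.mem_divisors.mp hm).1
        exact (Nat.Coprime.symm ((hq.coprime_iff_not_dvd).mpr hqm)).dvd_of_dvd_mul_left h2
      rw [if_pos (Nat.mem_divisors.mpr ⟨hmr, hr0⟩), if_neg, hs]
      · simp
      · intro h
        obtain ⟨k, -, rfl⟩ := mem_image.mp h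
        exact hqm (Dvd.intro k rfl)
    · rw [hs]
      split_ifs <;> linarith
  have hA : r.divisors ⊆ (q * r).divisors :=
    Nat.divisors_subset_of_dvd hqr (Dvd.intro_left q rfl)
  have hB : r.divisors.image (fun k => q * k) ⊆ (q * r).divisors := by
    intro m hm
    obtain ⟨k, hk, rfl⟩ := mem_image.mp hm
    exact Nat.mem_divisors.mpr ⟨Nat.mul_dvd_mul_left q (Nat.mem_divisors.mp hk).1, hqr⟩
  have h2 : ∑ m ∈ (q * r).divisors, ((if m ∈ r.divisors then F (τ / 2 - lg z m) else 0) -
        (if m ∈ r.divisors.image (fun k => q * k) then F (τ / 2 - lg z m) else 0)) =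
      ∑ k ∈ r.divisors, (F (τ / 2 - lg z r + lg z k) - F (τ / 2 - lg z q - lg z k)) := by
    rw [sum_sub_distrib, sum_sub_distrib, ← sum_filter, ← sum_filter,
      filter_mem_eq_inter, filter_mem_eq_inter, inter_eq_right.mpr hA, inter_eq_right.mpr hB]
    congr 1
    · rw [← Nat.sum_div_divisors r (fun m => F (τ / 2 - lg z m))]
      refine sum_congr rfl fun k hk => ?_
      obtain ⟨hk1, -⟩ := Nat.mem_divisors.mp hk
      have hk0 : k ≠ 0 := fun h => hr0 (by rw [h, zero_dvd_iff] at hk1; exact hk1)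
      have hrk : r / k ≠ 0 := (Nat.div_pos (Nat.le_of_dvd (Nat.pos_of_ne_zero hr0) hk1)
        (Nat.pos_of_ne_zero hk0)).ne'
      have h3 := lg_mul z hk0 hrk
      rw [Nat.mul_div_cancel' hk1] at h3
      rw [h3]
      congr 1
      ring
    · rw [sum_image]
      · refine sum_congr rfl fun k hk => ?_
        obtain ⟨hk1, -⟩ := Nat.mem_divisors.mp hk
        have hk0 : k ≠ 0 := fun h => hr0 (by rw [h, zero_dvd_iff] at hk1; exact hk1)
        rw [lg_mul z hq.ne_zero hk0]
        congr 1
        ring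
      · intro a _ b _ hab
        exact Nat.eq_of_mul_eq_mul_left hq.pos hab
  have h3 : ∑ k ∈ r.divisors, (F (τ / 2 - lg z r + lg z k) - F (τ / 2 - lg z q - lg z k)) ≤
      ∑ k ∈ r.divisors, (F (lg z k - (lg z r - lg z q) / 2) -
        F ((lg z r - lg z q) / 2 - lg z k)) +
      K * |τ - lg z q - lg z r| * (r.divisors.card : ℝ) := by
    have h4 : ∀ k ∈ r.divisors, F (τ / 2 - lg z r + lg z k) - F (τ / 2 - lg z q - lg z k) ≤
        (F (lg z k - (lg z r - lg z q) / 2) - F ((lg z r - lg z q) / 2 - lg z k)) +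
        K * |τ - lg z q - lg z r| := by
      intro k _
      have e1 := (abs_le.mp (hK (τ / 2 - lg z r + lg z k)
        (lg z k - (lg z r - lg z q) / 2))).2
      have e2 := (abs_le.mp (hK (τ / 2 - lg z q - lg z k)
        ((lg z r - lg z q) / 2 - lg z k))).1
      have f1 : τ / 2 - lg z r + lg z k - (lg z k - (lg z r - lg z q) / 2) =
          (τ - lg z q - lg z r) / 2 := by ring
      have f2 : τ / 2 - lg z q - lg z k - ((lg z r - lg z q) / 2 - lg z k) =
          (τ - lg z q - lg z r) / 2 := by ring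
      rw [f1] at e1
      rw [f2] at e2
      have f3 : |(τ - lg z q - lg z r) / 2| = |τ - lg z q - lg z r| / 2 := by
        rw [abs_div, abs_two]
      rw [f3] at e1 e2
      linarith
    refine (sum_le_sum h4).trans (le_of_eq ?_)
    rw [sum_add_distrib, sum_const, nsmul_eq_mul]
    ring
  have h5 := le_abs_self (∑ k ∈ r.divisors, (F (lg z k - (lg z r - lg z q) / 2) -
        F ((lg z r - lg z q) / 2 - lg z k)))
  linarith [h1, h2.le, h3, h5]

end Pool.Agent.Helper96.SP
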