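import Pool.Agent.Helper96.SP.Bump
import Pool.Agent.Helper96.SP.FT
import Pool.Agent.Helper96.SP.Planch
import Pool.Agent.Helper96.SP.TwM
import Pool.Agent.Helper96.SP.Euler
import Pool.Agent.Helper96.SP.L2
import Pool.Agent.Helper96.SP.Pair
import Pool.Agent.Helper96.SP.Bad
import Pool.Agent.Helper96.SP.Point

/-!
# Project SP: assembly of the modules SP-1, ..., SP-8
-/

set_option autoImplicit false

namespace Pool.Agent.Helper96.SP

/-- The sum over the primes with a large prime factor of `p - 1` is small. -/
theorem badFinal : BadSum :=
  badSum bump (l2Main ftBound planch (euler twM)) pairS (euler twM)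

end Pool.Agent.Helper96.SP
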